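import Mathlib

namespace Pool.Agent.H.MP_4c7f2d_al

/-- The base size set of `G`: the base sizes of all faithful actions of `G` on finite sets. -/
def BaseSizes (G : Type) [Group G] : Set ℕ :=
  {b | ∃ (S : Type) (_ : Finite S) (_ : MulAction G S), FaithfulSMul G S ∧
    IsLeast {k | ∃ B : Finset S, B.card = k ∧ ∀ g : G, (∀ x ∈ B, g • x = x) → g = 1} b}

/-- The determining set of `G`: the base sizes of the actions of `G` on the vertices of finite
simple graphs `Γ` through an isomorphism of `G` with the full automorphism group of `Γ`. -/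
def DetSizes (G : Type) [Group G] : Set ℕ :=
  {b | ∃ (V : Type) (_ : Finite V) (Γ : SimpleGraph V) (φ : G ≃* (Γ ≃g Γ)),
    IsLeast {k | ∃ B : Finset V, B.card = k ∧ ∀ g : G, (∀ x ∈ B, φ g x = x) → g = 1} b}

end Pool.Agent.H.MP_4c7f2d_al
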