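import Mathlib
import Pool.Agent.H.MP_4c7f2d_al.Defs

namespace Pool.Agent.H.MP_4c7f2d_al

open DihedralGroup

lemma exists_mul {n : ℕ} [NeZero n] (i : ZMod n) (hi : i ≠ 0) :
    ∃ p ∈ n.primeFactors, ∃ c : ℕ, i * c = ((n / p : ℕ) : ZMod n) := by
  have hn : n ≠ 0 := NeZero.ne n
  set a := i.val with ha
  set g := Nat.gcd a n with hg
  have hgn : g ∣ n := Nat.gcd_dvd_right a n
  have ha0 : a ≠ 0 := by
    intro h
    exact hi ((ZMod.val_eq_zero i).mp h)
  have han : a < n := ZMod.val_lt i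
  have hga : g ≤ a := Nat.gcd_le_left n (Nat.pos_of_ne_zero ha0)
  obtain ⟨e, he⟩ := hgn
  have he1 : e ≠ 1 := by
    intro h
    rw [h, mul_one] at he
    omega
  obtain ⟨p, hp, f, hf⟩ := Nat.exists_prime_and_dvd he1
  have hnp : n = p * (g * f) := by rw [he, hf]; ring
  have hdiv : n / p = g * f := by
    rw [hnp]; exact Nat.mul_div_cancel_left _ hp.pos
  refine ⟨p, Nat.mem_primeFactors.mpr ⟨hp, ⟨_, hnp⟩, hn⟩, ?_⟩
  have hb := Nat.gcd_eq_gcd_ab a n
  have hb' : ((g : ℕ) : ZMod n) = i * ((Nat.gcdA a n : ℤ) : ZMod n) := by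
    have h2 := congrArg (fun z : ℤ => (z : ZMod n)) hb
    simp only [Int.cast_add, Int.cast_mul, Int.cast_natCast, ZMod.natCast_self, zero_mul,
      add_zero] at h2
    rw [← hg] at h2
    rw [h2, ha, ZMod.natCast_zmod_val]
  refine ⟨(((Nat.gcdA a n : ℤ) : ZMod n) * (f : ZMod n)).val, ?_⟩
  rw [ZMod.natCast_zmod_val, hdiv, Nat.cast_mul, hb']
  ring

lemma upper {n : ℕ} [NeZero n] {S : Type} [MulAction (DihedralGroup n) S]
    (hf : FaithfulSMul (DihedralGroup n) S) :
    ∃ B : Finset S, B.card ≤ n.primeFactors.card + 1 ∧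
      ∀ g : DihedralGroup n, (∀ x ∈ B, g • x = x) → g = 1 := by
  classical
  have hn : n ≠ 0 := NeZero.ne n
  have hf' := faithfulSMul_iff.mp hf
  have h1 : ∀ p : n.primeFactors, ∃ x : S,
      (r (((n / (p : ℕ) : ℕ)) : ZMod n) : DihedralGroup n) • x ≠ x := by
    intro p
    by_contra hc
    push Not at hc
    have h := hf' _ hc
    rw [one_def] at h
    have h2 : (((n / (p : ℕ) : ℕ)) : ZMod n) = 0 := by injection h
    rw [ZMod.natCast_eq_zero_iff] at h2
    have hp := Nat.mem_primeFactors.mp p.2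
    have h3 : n / (p : ℕ) < n := Nat.div_lt_self (Nat.pos_of_ne_zero hn) hp.1.one_lt
    have h4 : 0 < n / (p : ℕ) := Nat.div_pos (Nat.le_of_dvd (Nat.pos_of_ne_zero hn) hp.2.1) hp.1.pos
    exact absurd (Nat.le_of_dvd h4 h2) (by omega)
  choose x hx using h1
  set B0 : Finset S := Finset.univ.image x with hB0
  have hc0 : B0.card ≤ n.primeFactors.card := by
    refine Finset.card_image_le.trans ?_
    simp
  have hrot : ∀ i : ZMod n, (∀ y ∈ B0, (r i : DihedralGroup n) • y = y) → i = 0 := by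
    intro i hi
    by_contra h0
    obtain ⟨p, hp, c, hc⟩ := exists_mul i h0
    have hmem : (r i : DihedralGroup n) ∈ MulAction.stabilizer (DihedralGroup n) (x ⟨p, hp⟩) :=
      hi _ (Finset.mem_image_of_mem _ (Finset.mem_univ _))
    have h2 := Subgroup.pow_mem _ hmem c
    rw [r_pow, hc] at h2
    exact hx ⟨p, hp⟩ h2
  by_cases hs : ∃ j : ZMod n, ∀ y ∈ B0, (sr j : DihedralGroup n) • y = y
  · obtain ⟨j, hj⟩ := hs
    have h3 : ∃ y : S, (sr j : DihedralGroup n) • y ≠ y := by
      by_contra hc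
      push Not at hc
      have h := hf' _ hc
      rw [one_def] at h
      cases h
    obtain ⟨y, hy⟩ := h3
    refine ⟨insert y B0, (Finset.card_insert_le _ _).trans (by omega), ?_⟩
    intro g hg
    cases g with
    | r i =>
      rw [hrot i (fun z hz => hg z (Finset.mem_insert_of_mem hz))]
      rfl
    | sr k =>
      exfalso
      have h4 : k - j = 0 := by
        apply hrot
        intro z hz
        rw [← sr_mul_sr, mul_smul, hg z (Finset.mem_insert_of_mem hz), hj z hz]
      have h5 : k = j := sub_eq_zero.mp h4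
      subst h5
      exact hy (hg y (Finset.mem_insert_self _ _))
  · refine ⟨B0, by omega, ?_⟩
    intro g hg
    cases g with
    | r i =>
      rw [hrot i hg]
      rfl
    | sr k => exact absurd ⟨k, hg⟩ hs

section blocks

variable {m : ℕ} (d : Fin m → ℕ)

/-- Reduction modulo the `i`-th block. -/
def ph (i : Fin m) : ZMod (∏ j, d j) →+* ZMod (d i) :=
  ZMod.castHom (Finset.dvd_prod_of_mem d (Finset.mem_univ i)) _

/-- The points: a disjoint union of polygons. -/
def Pt : Type := Σ i : Fin m, ZMod (d i)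

/-- The action on the points. -/
def act : DihedralGroup (∏ j, d j) → Pt d → Pt d
  | r a, ⟨i, x⟩ => ⟨i, x + ph d i a⟩
  | sr a, ⟨i, x⟩ => ⟨i, -x - ph d i a⟩

instance : MulAction (DihedralGroup (∏ j, d j)) (Pt d) where
  smul := act d
  one_smul := by
    rintro ⟨i, x⟩
    change act d (r 0) ⟨i, x⟩ = _
    simp only [act, map_zero, add_zero]
  mul_smul := by
    rintro (a | a) (b | b) ⟨i, x⟩
    · change act d (r (a + b)) ⟨i, x⟩ = act d (r a) (act d (r b) ⟨i, x⟩)
      simp only [act, map_add]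
      congr 1
      ring
    · change act d (sr (b - a)) ⟨i, x⟩ = act d (r a) (act d (sr b) ⟨i, x⟩)
      simp only [act, map_sub]
      congr 1
      ring
    · change act d (sr (a + b)) ⟨i, x⟩ = act d (sr a) (act d (r b) ⟨i, x⟩)
      simp only [act, map_add]
      congr 1
      ring
    · change act d (r (b - a)) ⟨i, x⟩ = act d (sr a) (act d (sr b) ⟨i, x⟩)
      simp only [act, map_sub]
      congr 1
      ring

lemma r_fix (a : ZMod (∏ j, d j)) (i : Fin m) (x : ZMod (d i)) :
    (r a : DihedralGroup (∏ j, d j)) • (show Pt d from ⟨i, x⟩) = (show Pt d from ⟨i, x⟩) ↔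
      ph d i a = 0 := by
  change (⟨i, x + ph d i a⟩ : Σ i : Fin m, ZMod (d i)) = ⟨i, x⟩ ↔ _
  simp

lemma sr_fix (a : ZMod (∏ j, d j)) (i : Fin m) (x : ZMod (d i)) :
    (sr a : DihedralGroup (∏ j, d j)) • (show Pt d from ⟨i, x⟩) = (show Pt d from ⟨i, x⟩) ↔
      -x - ph d i a = x := by
  change (⟨i, -x - ph d i a⟩ : Σ i : Fin m, ZMod (d i)) = ⟨i, x⟩ ↔ _
  simp

lemma crt_inj (hc : Pairwise (Function.onFun Nat.Coprime d)) (a : ZMod (∏ j, d j))
    (h : ∀ i, ph d i a = 0) : a = 0 := by
  apply (ZMod.prodEquivPi d hc).injective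
  funext i
  rw [ZMod.prodEquivPi_apply, map_zero]
  exact h i

lemma crt_surj (hc : Pairwise (Function.onFun Nat.Coprime d)) (y : ∀ i, ZMod (d i)) :
    ∃ a : ZMod (∏ j, d j), ∀ i, ph d i a = y i := by
  obtain ⟨a, ha⟩ := (ZMod.prodEquivPi d hc).surjective y
  refine ⟨a, fun i => ?_⟩
  rw [← ha, ZMod.prodEquivPi_apply]
  rfl

lemma realise0 (hc : Pairwise (Function.onFun Nat.Coprime d)) (h1 : ∀ i, 1 < d i)
    (h3 : 3 ≤ ∏ j, d j) : IsLeast {k | ∃ B : Finset (Pt d), B.card = k ∧
      ∀ g : DihedralGroup (∏ j, d j), (∀ x ∈ B, g • x = x) → g = 1} (m + 1) := by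
  classical
  have : ∀ i, NeZero (d i) := fun i => ⟨by have := h1 i; omega⟩
  have h2 : ∃ i0, (2 : ZMod (d i0)) ≠ 0 := by
    by_contra hcon
    push Not at hcon
    have h4 : (2 : ZMod (∏ j, d j)) = 0 := by
      apply crt_inj d hc
      intro i
      rw [map_ofNat]
      exact hcon i
    have h5 : ((2 : ℕ) : ZMod (∏ j, d j)) = 0 := by exact_mod_cast h4
    rw [ZMod.natCast_eq_zero_iff] at h5
    have := Nat.le_of_dvd (by norm_num) h5
    omega
  obtain ⟨i0, hi0⟩ := h2
  let z : Fin m → Pt d := fun i => ⟨i, 0⟩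
  let w : Pt d := ⟨i0, 1⟩
  let B1 : Finset (Pt d) := insert w (Finset.univ.image z)
  have hB1 : ∀ g : DihedralGroup (∏ j, d j), (∀ x ∈ B1, g • x = x) → g = 1 := by
    intro g hg
    have hz : ∀ i, g • z i = z i := fun i =>
      hg _ (Finset.mem_insert_of_mem (Finset.mem_image_of_mem _ (Finset.mem_univ _)))
    have hw : g • w = w := hg _ (Finset.mem_insert_self _ _)
    cases g with
    | r a =>
      rw [crt_inj d hc a (fun i => (r_fix d a i 0).mp (hz i))]
      rfl
    | sr a =>
      exfalso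
      have e1 := (sr_fix d a i0 0).mp (hz i0)
      have e2 := (sr_fix d a i0 1).mp hw
      apply hi0
      linear_combination e1 - e2
  have hB1c : B1.card ≤ m + 1 := by
    refine (Finset.card_insert_le _ _).trans ?_
    have := Finset.card_image_le (s := Finset.univ) (f := z)
    simp only [Finset.card_univ, Fintype.card_fin] at this
    omega
  have hlow : ∀ B : Finset (Pt d),
      (∀ g : DihedralGroup (∏ j, d j), (∀ x ∈ B, g • x = x) → g = 1) → m + 1 ≤ B.card := by
    intro B hB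
    by_contra hlt
    by_cases hall : ∀ i, ∃ y : ZMod (d i), (show Pt d from ⟨i, y⟩) ∈ B
    · choose y hy using hall
      let u : Fin m → Pt d := fun i => ⟨i, y i⟩
      have hu : Function.Injective u := fun i j hij => congrArg Sigma.fst hij
      have hsub : Finset.univ.image u ⊆ B := by
        intro x hx
        obtain ⟨i, -, rfl⟩ := Finset.mem_image.mp hx
        exact hy i
      have heq : Finset.univ.image u = B := by
        apply Finset.eq_of_subset_of_card_le hsub
        rw [Finset.card_image_of_injective _ hu]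
        simp only [Finset.card_univ, Fintype.card_fin]
        omega
      obtain ⟨a, ha⟩ := crt_surj d hc (fun i => -2 * y i)
      have h6 := hB (sr a) (by
        intro x hx
        rw [← heq] at hx
        obtain ⟨i, -, rfl⟩ := Finset.mem_image.mp hx
        apply (sr_fix d a i (y i)).mpr
        rw [ha]
        ring)
      rw [one_def] at h6
      cases h6
    · push Not at hall
      obtain ⟨i, hi⟩ := hall
      obtain ⟨a, ha⟩ := crt_surj d hc (fun j => if j = i then 1 else 0)
      have h6 := hB (r a) (by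
        rintro ⟨j, y⟩ hx
        apply (r_fix d a j y).mpr
        rw [ha]
        have hji : j ≠ i := by
          rintro rfl
          exact hi y hx
        simp [hji])
      rw [one_def] at h6
      have h7 : a = 0 := by injection h6
      have h8 := ha i
      rw [h7, map_zero] at h8
      have : Fact (1 < d i) := ⟨h1 i⟩
      simp at h8
  refine ⟨⟨B1, le_antisymm hB1c (hlow B1 hB1), hB1⟩, ?_⟩
  rintro k ⟨B, rfl, hB⟩
  exact hlow B hB

lemma realise (hc : Pairwise (Function.onFun Nat.Coprime d)) (h1 : ∀ i, 1 < d i)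
    (h3 : 3 ≤ ∏ j, d j) : m + 1 ∈ BaseSizes (DihedralGroup (∏ j, d j)) := by
  have : ∀ i, NeZero (d i) := fun i => ⟨by have := h1 i; omega⟩
  have hfin : Finite (Pt d) := inferInstanceAs (Finite (Σ i : Fin m, ZMod (d i)))
  have h := realise0 d hc h1 h3
  obtain ⟨B1, -, hB1⟩ := h.1
  exact ⟨Pt d, hfin, inferInstance, faithfulSMul_iff.mpr (fun g hg => hB1 g (fun x _ => hg x)), h⟩

end blocks

lemma split {n m : ℕ} (hn : n ≠ 0) (hm : 1 ≤ m) (hle : m ≤ n.primeFactors.card) :
    ∃ d : Fin m → ℕ, Pairwise (Function.onFun Nat.Coprime d) ∧ (∀ i, 1 < d i) ∧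
      ∏ j, d j = n := by
  classical
  have : Nonempty (Fin m) := ⟨⟨0, hm⟩⟩
  obtain ⟨e⟩ : Nonempty (Fin m ↪ n.primeFactors) := by
    apply Function.Embedding.nonempty_of_card_le
    simpa using hle
  have hs : Function.Surjective (Function.invFun e) := Function.invFun_surjective e.injective
  set f : n.primeFactors → Fin m := Function.invFun e
  refine ⟨fun i => ∏ p ∈ Finset.univ.filter (fun p => f p = i), (p : ℕ) ^ n.factorization p,
    ?_, ?_, ?_⟩
  · intro i j hij
    apply Nat.Coprime.prod_left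
    intro p hp
    apply Nat.Coprime.prod_right
    intro q hq
    have hpq : p ≠ q := by
      rintro rfl
      exact hij ((Finset.mem_filter.mp hp).2.symm.trans (Finset.mem_filter.mp hq).2)
    exact n.pairwise_coprime_pow_primeFactors_factorization hpq
  · intro i
    obtain ⟨p, hp⟩ := hs i
    have hpos : ∀ q : n.primeFactors, 1 < (q : ℕ) ^ n.factorization q := by
      intro q
      have hq := Nat.mem_primeFactors.mp q.2
      exact Nat.one_lt_pow (hq.1.factorization_pos_of_dvd hn hq.2.1).ne' hq.1.one_lt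
    have hdvd : (p : ℕ) ^ n.factorization p ∣
        ∏ q ∈ Finset.univ.filter (fun q => f q = i), (q : ℕ) ^ n.factorization q :=
      Finset.dvd_prod_of_mem (fun q : n.primeFactors => (q : ℕ) ^ n.factorization q)
        (Finset.mem_filter.mpr ⟨Finset.mem_univ _, hp⟩)
    refine (hpos p).trans_le (Nat.le_of_dvd ?_ hdvd)
    exact Finset.prod_pos (fun q _ => (Nat.zero_lt_one.trans (hpos q)))
  · rw [Finset.prod_fiberwise]
    exact (Nat.prod_primeFactors_coe_pow_factorization hn).symm

lemma base_eq (n : ℕ) (hn : 3 ≤ n) :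
    BaseSizes (DihedralGroup n) = Set.Icc 1 (n.primeFactors.card + 1) := by
  have : NeZero n := ⟨by omega⟩
  have hne : ∀ (S : Type) [MulAction (DihedralGroup n) S] (B : Finset S),
      (∀ g : DihedralGroup n, (∀ x ∈ B, g • x = x) → g = 1) → 1 ≤ B.card := by
    intro S _ B hB
    by_contra h
    have h0 : B = ∅ := Finset.card_eq_zero.mp (by omega)
    have h2 := hB (sr 0) (by simp [h0])
    rw [one_def] at h2
    cases h2
  ext b
  constructor
  · rintro ⟨S, _, _, hf, ⟨B, rfl, hB⟩, hlow⟩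
    refine ⟨hne S B hB, ?_⟩
    obtain ⟨B', hc, hB'⟩ := upper hf
    exact (hlow ⟨B', rfl, hB'⟩).trans hc
  · rintro ⟨h1, h2⟩
    rcases eq_or_lt_of_le h1 with rfl | h3
    · refine ⟨DihedralGroup n, inferInstance, inferInstance, inferInstance,
        ⟨{1}, Finset.card_singleton _, fun g hg => ?_⟩, ?_⟩
      · simpa using hg 1 (Finset.mem_singleton_self _)
      · rintro k ⟨B, rfl, hB⟩
        exact hne _ B hB
    · obtain ⟨m, rfl⟩ : ∃ m, b = m + 1 := ⟨b - 1, by omega⟩
      obtain ⟨d, hc, hd, rfl⟩ := split (n := n) (m := m) (by omega) (by omega) (by omega)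
      exact realise d hc hd hn


lemma cover {n : ℕ} [NeZero n] {S : Type} [MulAction (DihedralGroup n) S]
    (hf' : ∀ g : DihedralGroup n, (∀ x : S, g • x = x) → g = 1) (B0 : Finset S)
    (hx : ∀ q ∈ n.primeFactors, ∃ x ∈ B0,
      (r (((n / q : ℕ)) : ZMod n) : DihedralGroup n) • x ≠ x) :
    (∃ B : Finset S, B.card ≤ B0.card + 1 ∧
      ∀ g : DihedralGroup n, (∀ x ∈ B, g • x = x) → g = 1) ∧
    ((¬ ∃ j : ZMod n, ∀ y ∈ B0, (sr j : DihedralGroup n) • y = y) →
      ∀ g : DihedralGroup n, (∀ x ∈ B0, g • x = x) → g = 1) := by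
  classical
  have hrot : ∀ i : ZMod n, (∀ y ∈ B0, (r i : DihedralGroup n) • y = y) → i = 0 := by
    intro i hi
    by_contra h0
    obtain ⟨p, hp, c, hc⟩ := exists_mul i h0
    obtain ⟨x, hxB, hx'⟩ := hx p hp
    have hmem : (r i : DihedralGroup n) ∈ MulAction.stabilizer (DihedralGroup n) x := hi _ hxB
    have h2 := Subgroup.pow_mem _ hmem c
    rw [r_pow, hc] at h2
    exact hx' h2
  have hsecond : (¬ ∃ j : ZMod n, ∀ y ∈ B0, (sr j : DihedralGroup n) • y = y) →
      ∀ g : DihedralGroup n, (∀ x ∈ B0, g • x = x) → g = 1 := by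
    intro hs g hg
    cases g with
    | r i =>
      rw [hrot i hg]
      rfl
    | sr k => exact absurd ⟨k, hg⟩ hs
  refine ⟨?_, hsecond⟩
  by_cases hs : ∃ j : ZMod n, ∀ y ∈ B0, (sr j : DihedralGroup n) • y = y
  · obtain ⟨j, hj⟩ := hs
    have h3 : ∃ y : S, (sr j : DihedralGroup n) • y ≠ y := by
      by_contra hc
      push Not at hc
      have h := hf' _ hc
      rw [one_def] at h
      cases h
    obtain ⟨y, hy⟩ := h3
    refine ⟨insert y B0, Finset.card_insert_le _ _, ?_⟩
    intro g hg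
    cases g with
    | r i =>
      rw [hrot i (fun z hz => hg z (Finset.mem_insert_of_mem hz))]
      rfl
    | sr k =>
      exfalso
      have h4 : k - j = 0 := by
        apply hrot
        intro z hz
        rw [← sr_mul_sr, mul_smul, hg z (Finset.mem_insert_of_mem hz), hj z hz]
      have h5 : k = j := sub_eq_zero.mp h4
      subst h5
      exact hy (hg y (Finset.mem_insert_self _ _))
  · exact ⟨B0, by omega, hsecond hs⟩

lemma core {n p : ℕ} (hp : p.Prime) (hp2 : p ≠ 2) (hpn : p ∣ n) (hpp : ¬ p ^ 2 ∣ n)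
    (hn1 : n ≠ p) (hn2 : n ≠ 2 * p) {S : Type} [MulAction (DihedralGroup n) S]
    (hf' : ∀ g : DihedralGroup n, (∀ x : S, g • x = x) → g = 1)
    (A : S → S → Prop) (hsym : ∀ x y, A x y → A y x)
    (hinv : ∀ (g : DihedralGroup n) x y, A x y → A (g • x) (g • y))
    (hcl : ∀ σ : S → S, Function.Involutive σ → (∀ x y, A x y → A (σ x) (σ y)) →
      ∃ g : DihedralGroup n, ∀ x, σ x = g • x)
    (hlow : ∀ B : Finset S, (∀ g : DihedralGroup n, (∀ x ∈ B, g • x = x) → g = 1) →
      n.primeFactors.card + 1 ≤ B.card) : False := by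
  classical
  have hn : n ≠ 0 := by
    rintro rfl
    exact hpp (dvd_zero _)
  have : NeZero n := ⟨hn⟩
  have hpm : p ∈ n.primeFactors := Nat.mem_primeFactors.mpr ⟨hp, hpn, hn⟩
  have h1 : ∀ q : ℕ, q ∈ n.primeFactors → ∃ x : S,
      (r (((n / q : ℕ)) : ZMod n) : DihedralGroup n) • x ≠ x := by
    intro q hq0
    by_contra hc
    push Not at hc
    have h := hf' _ hc
    rw [one_def] at h
    have h2 : (((n / q : ℕ)) : ZMod n) = 0 := by injection h
    rw [ZMod.natCast_eq_zero_iff] at h2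
    have hq := Nat.mem_primeFactors.mp hq0
    have h3 : n / q < n := Nat.div_lt_self (Nat.pos_of_ne_zero hn) hq.1.one_lt
    have h4 : 0 < n / q := Nat.div_pos (Nat.le_of_dvd (Nat.pos_of_ne_zero hn) hq.2.1) hq.1.pos
    exact absurd (Nat.le_of_dvd h4 h2) (by omega)
  obtain ⟨xp, hxp⟩ := h1 p hpm
  have : Nonempty S := ⟨xp⟩
  choose! x0 hx0 using h1
  set B' : Finset S := (n.primeFactors.erase p).image x0 with hB'
  have hc' : B'.card + 1 ≤ n.primeFactors.card := by
    have e1 : B'.card ≤ (n.primeFactors.erase p).card := Finset.card_image_le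
    have e2 := Finset.card_erase_add_one hpm
    omega
  have hB'm : ∀ q ∈ n.primeFactors, q ≠ p → x0 q ∈ B' := fun q hq hqp =>
    Finset.mem_image_of_mem _ (Finset.mem_erase.mpr ⟨hqp, hq⟩)
  set t : ZMod n := ((n / p : ℕ) : ZMod n) with ht
  have hnp : n / p * p = n := Nat.div_mul_cancel hpn
  have htp : t * p = 0 := by
    rw [ht, ← Nat.cast_mul, hnp, ZMod.natCast_self]
  -- rotations fixing `B'`
  have hC : ∀ i : ZMod n, (∀ y ∈ B', (r i : DihedralGroup n) • y = y) → i * p = 0 := by
    intro i hi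
    by_contra h0
    obtain ⟨q, hq, c, hc⟩ := exists_mul _ h0
    by_cases hqp : q = p
    · subst hqp
      apply hpp
      have e1 := congrArg (ZMod.castHom hpn (ZMod q)) hc
      rw [map_mul, map_mul, map_natCast, map_natCast, map_natCast, ZMod.natCast_self, mul_zero,
        zero_mul] at e1
      have e2 : q ∣ n / q := (ZMod.natCast_eq_zero_iff _ _).mp e1.symm
      rw [← hnp, pow_two]
      exact Nat.mul_dvd_mul_right e2 q
    · have hmem : (r i : DihedralGroup n) ∈ MulAction.stabilizer (DihedralGroup n) (x0 q) :=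
        hi _ (hB'm q hq hqp)
      have h2 := Subgroup.pow_mem _ (Subgroup.pow_mem _ hmem p) c
      rw [r_pow, r_pow, hc] at h2
      exact hx0 q hq h2
  have hC' : ∀ i : ZMod n, i * p = 0 → ∃ k : ℕ, i = t * k := by
    intro i hi
    have e1 : ((i.val * p : ℕ) : ZMod n) = 0 := by
      rw [Nat.cast_mul, ZMod.natCast_zmod_val, hi]
    rw [ZMod.natCast_eq_zero_iff] at e1
    have e2 : n / p * p ∣ i.val * p := by rwa [hnp]
    obtain ⟨k, hk⟩ := Nat.dvd_of_mul_dvd_mul_right hp.pos e2
    refine ⟨k, ?_⟩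
    rw [ht, ← Nat.cast_mul, ← hk, ZMod.natCast_zmod_val]
  -- points of `B'` are fixed by `r t`
  have hdis : ∀ y ∈ B', (r t : DihedralGroup n) • y = y := by
    intro y hy
    by_contra hc
    obtain ⟨B, hBc, hB⟩ := (cover hf' B' (by
      intro q hq
      by_cases hqp : q = p
      · subst hqp
        exact ⟨y, hy, hc⟩
      · exact ⟨x0 q, hB'm q hq hqp, hx0 q hq⟩)).1
    have := hlow B hB
    omega
  -- every point moved by `r t` shares a reflection with `B'`
  have hrefl : ∀ x : S, (r t : DihedralGroup n) • x ≠ x → ∃ j : ZMod n,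
      (sr j : DihedralGroup n) • x = x ∧ ∀ y ∈ B', (sr j : DihedralGroup n) • y = y := by
    intro x hx
    by_contra hc
    have hB := (cover hf' (insert x B') (by
      intro q hq
      by_cases hqp : q = p
      · subst hqp
        exact ⟨x, Finset.mem_insert_self _ _, hx⟩
      · exact ⟨x0 q, Finset.mem_insert_of_mem (hB'm q hq hqp), hx0 q hq⟩)).2 (by
      rintro ⟨j, hj⟩
      exact hc ⟨j, hj x (Finset.mem_insert_self _ _),
        fun y hy => hj y (Finset.mem_insert_of_mem hy)⟩)
    have e1 := hlow _ hB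
    have e2 := Finset.card_insert_le x B'
    omega
  obtain ⟨j0, -, hj0⟩ := hrefl xp hxp
  have hs : ∀ x : S, (r t : DihedralGroup n) • x ≠ x →
      ∃ k : ℕ, (sr j0 : DihedralGroup n) • x = (r t : DihedralGroup n) ^ k • x := by
    intro x hx
    obtain ⟨j, hj, hjB⟩ := hrefl x hx
    obtain ⟨k, hk⟩ := hC' (j - j0) (hC _ (by
      intro z hz
      rw [← sr_mul_sr, mul_smul, hjB z hz, hj0 z hz]))
    refine ⟨k, ?_⟩
    rw [r_pow, ← hk, ← sr_mul_sr, mul_smul, hj]
  have hcomm : ∀ (i : ZMod n) (x : S), (r t : DihedralGroup n) • (r i : DihedralGroup n) • x =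
      (r i : DihedralGroup n) • (r t : DihedralGroup n) • x := by
    intro i x
    rw [← mul_smul, ← mul_smul, r_mul_r, r_mul_r, add_comm]
  have hmove : ∀ (i : ZMod n) (x : S),
      (r t : DihedralGroup n) • (r i : DihedralGroup n) • x = (r i : DihedralGroup n) • x ↔
        (r t : DihedralGroup n) • x = x := by
    intro i x
    rw [hcomm, smul_left_cancel_iff]
  let σ : S → S := fun x =>
    if (r t : DihedralGroup n) • x = x then x else (sr j0 : DihedralGroup n) • x
  have hσ1 : ∀ x, (r t : DihedralGroup n) • x = x → σ x = x := fun x hx => if_pos hx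
  have hσ2 : ∀ x, (r t : DihedralGroup n) • x ≠ x → σ x = (sr j0 : DihedralGroup n) • x :=
    fun x hx => if_neg hx
  have hσinv : Function.Involutive σ := by
    intro x
    by_cases hx : (r t : DihedralGroup n) • x = x
    · rw [hσ1 x hx, hσ1 x hx]
    · obtain ⟨k, hk⟩ := hs x hx
      have hx2 : (r t : DihedralGroup n) • (sr j0 : DihedralGroup n) • x ≠
          (sr j0 : DihedralGroup n) • x := by
        rw [hk, r_pow]
        exact fun h => hx ((hmove _ x).mp h)
      rw [hσ2 x hx, hσ2 _ hx2, ← mul_smul, sr_mul_self, one_smul]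
  have hmix : ∀ x y, (r t : DihedralGroup n) • x ≠ x → (r t : DihedralGroup n) • y = y →
      A x y → A (σ x) (σ y) := by
    intro x y hx hy hA
    obtain ⟨k, hk⟩ := hs x hx
    have hy2 : (r t : DihedralGroup n) ^ k • y = y :=
      Subgroup.pow_mem (MulAction.stabilizer (DihedralGroup n) y) hy k
    rw [hσ2 x hx, hσ1 y hy, hk]
    have := hinv ((r t : DihedralGroup n) ^ k) x y hA
    rwa [hy2] at this
  have hσA : ∀ x y, A x y → A (σ x) (σ y) := by
    intro x y hA
    by_cases hx : (r t : DihedralGroup n) • x = x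
    · by_cases hy : (r t : DihedralGroup n) • y = y
      · rwa [hσ1 x hx, hσ1 y hy]
      · exact hsym _ _ (hmix y x hy hx (hsym _ _ hA))
    · by_cases hy : (r t : DihedralGroup n) • y = y
      · exact hmix x y hx hy hA
      · rw [hσ2 x hx, hσ2 y hy]
        exact hinv _ x y hA
  obtain ⟨g, hg⟩ := hcl σ hσinv hσA
  cases g with
  | r i =>
    have hx2 : (r t : DihedralGroup n) • (r t : DihedralGroup n) • xp ≠
        (r t : DihedralGroup n) • xp := fun h => hxp ((hmove _ xp).mp h)
    have e1 := (hσ2 xp hxp).symm.trans (hg xp)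
    have e2 := (hσ2 _ hx2).symm.trans (hg _)
    have e3 : (r (t + t) : DihedralGroup n) • xp = xp := by
      have e4 : (sr j0 : DihedralGroup n) • (r t : DihedralGroup n) • xp =
          (r (-t) : DihedralGroup n) • (sr j0 : DihedralGroup n) • xp := by
        rw [← mul_smul, ← mul_smul, sr_mul_r, r_mul_sr, sub_neg_eq_add]
      rw [e4, e1, ← mul_smul, ← mul_smul, r_mul_r, r_mul_r] at e2
      have e5 := congrArg (fun z => (r (t - i) : DihedralGroup n) • z) e2
      simp only [← mul_smul, r_mul_r] at e5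
      have e6 : t - i + (-t + i) = 0 := by ring
      have e7 : t - i + (i + t) = t + t := by ring
      rw [e6, e7, r_zero, one_smul] at e5
      exact e5.symm
    obtain ⟨c, hc⟩ := hp.odd_of_ne_two hp2
    have h2 := Subgroup.pow_mem (MulAction.stabilizer (DihedralGroup n) xp) e3 (c + 1)
    rw [r_pow] at h2
    have e8 : (t + t) * ((c + 1 : ℕ) : ZMod n) = t := by
      have e9 : (p : ZMod n) = 2 * c + 1 := by rw [hc]; push_cast; ring
      rw [e9] at htp
      push_cast
      linear_combination htp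
    rw [e8] at h2
    exact hxp h2
  | sr j =>
    have e0 := hC 2 (by
      intro y hy
      have hy1 := hdis y hy
      have hy2 := (hmove 1 y).mpr hy1
      have e1 := (hσ1 y hy1).symm.trans (hg y)
      have e2 := (hσ1 _ hy2).symm.trans (hg _)
      have e4 : (sr j : DihedralGroup n) • (r 1 : DihedralGroup n) • y =
          (r (-1) : DihedralGroup n) • (sr j : DihedralGroup n) • y := by
        rw [← mul_smul, ← mul_smul, sr_mul_r, r_mul_sr, sub_neg_eq_add]
      rw [e4, ← e1] at e2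
      have e5 := congrArg (fun z => (r 1 : DihedralGroup n) • z) e2
      simp only [← mul_smul, r_mul_r] at e5
      have e6 : (1 : ZMod n) + -1 = 0 := by ring
      have e7 : (1 : ZMod n) + 1 = 2 := by ring
      rw [e6, e7, r_zero, one_smul] at e5
      exact e5)
    have e1 : ((2 * p : ℕ) : ZMod n) = 0 := by exact_mod_cast e0
    rw [ZMod.natCast_eq_zero_iff] at e1
    have e2 : n / p * p ∣ 2 * p := by rwa [hnp]
    have e3 : n / p ∣ 2 := Nat.dvd_of_mul_dvd_mul_right hp.pos e2
    rcases (Nat.dvd_prime Nat.prime_two).mp e3 with h | h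
    · rw [h] at hnp
      omega
    · rw [h] at hnp
      omega

lemma not_mem (n p : ℕ) (hp : p.Prime) (hp2 : p ≠ 2) (hpn : p ∣ n) (hpp : ¬ p ^ 2 ∣ n)
    (hn1 : n ≠ p) (hn2 : n ≠ 2 * p) :
    n.primeFactors.card + 1 ∈ BaseSizes (DihedralGroup n) ∧
    n.primeFactors.card + 1 ∉ DetSizes (DihedralGroup n) ∧
    DetSizes (DihedralGroup n) ≠ BaseSizes (DihedralGroup n) := by
  have hn : n ≠ 0 := by
    rintro rfl
    exact hpp (dvd_zero _)
  have h3 : 3 ≤ n := by
    have := Nat.le_of_dvd (Nat.pos_of_ne_zero hn) hpn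
    have := hp.two_le
    omega
  have hB : n.primeFactors.card + 1 ∈ BaseSizes (DihedralGroup n) := by
    rw [base_eq n h3]
    exact ⟨by omega, le_rfl⟩
  have hD : n.primeFactors.card + 1 ∉ DetSizes (DihedralGroup n) := by
    rintro ⟨V, _, Γ, φ, ⟨B, -, hB0⟩, hlow⟩
    let : MulAction (DihedralGroup n) V :=
      { smul := fun g x => φ g x
        one_smul := fun x => by
          change φ 1 x = x
          rw [map_one]
          rfl
        mul_smul := fun g h x => by
          change φ (g * h) x = φ g (φ h x)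
          rw [map_mul]
          rfl }
    refine core hp hp2 hpn hpp hn1 hn2 (S := V) (fun g hg => hB0 g (fun x _ => hg x)) Γ.Adj
      (fun x y h => h.symm) (fun g x y h => (φ g).map_rel_iff.mpr h) ?_
      (fun B hB => hlow ⟨B, rfl, hB⟩)
    intro σ hσ hA
    let τ : Γ ≃g Γ :=
      { toEquiv := hσ.toPerm
        map_rel_iff' := fun {a b} => ⟨fun h => by
          have := hA _ _ h
          change Γ.Adj (σ (σ a)) (σ (σ b)) at this
          rwa [hσ a, hσ b] at this, fun h => hA _ _ h⟩ }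
    refine ⟨φ.symm τ, fun x => ?_⟩
    change σ x = φ (φ.symm τ) x
    rw [MulEquiv.apply_symm_apply]
    rfl
  exact ⟨hB, hD, fun h => hD (h ▸ hB)⟩

lemma det_sub (G : Type) [Group G] : DetSizes G ⊆ BaseSizes G := by
  rintro b ⟨V, hV, Γ, φ, ⟨B, hc, hB0⟩, hlow⟩
  let inst : MulAction G V :=
    { smul := fun g x => φ g x
      one_smul := fun x => by
        change φ 1 x = x
        rw [map_one]
        rfl
      mul_smul := fun g h x => by
        change φ (g * h) x = φ g (φ h x)
        rw [map_mul]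
        rfl }
  exact ⟨V, hV, inst, faithfulSMul_iff.mpr (fun g hg => hB0 g (fun x _ => hg x)),
    ⟨B, hc, hB0⟩, hlow⟩


section gadget

variable {G V K : Type} [Group G] [MulAction G V] [LinearOrder K]

/-- Adjacency of the graph with anchors. -/
def gA (A : V → V → Prop) (c : V → K) : V ⊕ K ⊕ Bool → V ⊕ K ⊕ Bool → Prop
  | .inl x, .inl y => A x y
  | .inl x, .inr (.inl j) => j ≤ c x
  | .inr (.inl j), .inl x => j ≤ c x
  | .inr (.inl _), .inr (.inr b) => b = false
  | .inr (.inr b), .inr (.inl _) => b = false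
  | .inr (.inr b), .inr (.inr b') => b ≠ b'
  | .inl _, .inr (.inr _) => False
  | .inr (.inr _), .inl _ => False
  | .inr (.inl _), .inr (.inl _) => False

lemma gadget [Finite V] [Finite K] [Nonempty K] (A : V → V → Prop)
    (hsym : ∀ x y, A x y → A y x) (hirr : ∀ x, ¬ A x x)
    (hinv : ∀ (g : G) x y, A x y → A (g • x) (g • y)) (c : V → K) (hc : Function.Surjective c)
    (hcinv : ∀ (g : G) x, c (g • x) = c x) (hnb : ∀ v, ∃ w, A v w)
    (hcl : ∀ σ : V → V, Function.Injective σ → (∀ x y, A (σ x) (σ y) ↔ A x y) →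
      (∀ x, c (σ x) = c x) → ∃ g : G, ∀ x, σ x = g • x) (b : ℕ)
    (hb : IsLeast {k | ∃ B : Finset V, B.card = k ∧ ∀ g : G, (∀ x ∈ B, g • x = x) → g = 1} b) :
    b ∈ DetSizes G := by
  classical
  let Γ : SimpleGraph (V ⊕ K ⊕ Bool) :=
    { Adj := gA A c
      symm := ⟨by
        rintro (x | j | b) (y | k | b') h <;> simp only [gA] at h ⊢
        · exact hsym _ _ h
        all_goals first | exact h | exact h.symm⟩
      loopless := ⟨by
        rintro (x | j | b) h <;> simp only [gA] at h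
        · exact hirr _ h
        · exact h rfl⟩ }
  have hiff : ∀ (g : G) x y, A (g • x) (g • y) ↔ A x y := fun g x y =>
    ⟨fun h => by simpa using hinv g⁻¹ _ _ h, hinv g x y⟩
  let ψ : G → (Γ ≃g Γ) := fun g =>
    { toEquiv := Equiv.sumCongr (MulAction.toPerm g) (Equiv.refl _)
      map_rel_iff' := by
        rintro (x | j | b) (y | k | b') <;>
          simp [Γ, gA, hiff, hcinv] }
  have hψ1 : ∀ g x, ψ g (.inl x) = .inl (g • x) := fun g x => rfl
  have hψ2 : ∀ g x, ψ g (.inr x) = .inr x := fun g x => rfl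
  let Ψ : G →* (Γ ≃g Γ) := MonoidHom.mk' ψ (by
    intro g h
    ext x
    rcases x with x | x
    · change ψ (g * h) (.inl x) = ψ g (ψ h (.inl x))
      rw [hψ1, hψ1, hψ1, mul_smul]
    · rfl)
  obtain ⟨⟨B0, hB0c, hB0⟩, hlow⟩ := hb
  have hinj : Function.Injective Ψ := by
    rw [injective_iff_map_eq_one]
    intro g hg
    apply hB0 g
    intro x _
    have : ψ g (.inl x) = .inl x := by
      change Ψ g (.inl x) = _
      rw [hg]
      rfl
    rw [hψ1] at this
    exact Sum.inl_injective this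
  have hsurj : Function.Surjective Ψ := by
    intro τ
    have hadj : ∀ x y, gA A c (τ x) (τ y) ↔ gA A c x y := fun x y => τ.map_rel_iff
    have htwo : ∀ x : V ⊕ K ⊕ Bool, x ≠ .inr (.inr true) →
        ∃ y y', y ≠ y' ∧ gA A c x y ∧ gA A c x y' := by
      rintro (x | j | b) hx
      · obtain ⟨w, hw⟩ := hnb x
        exact ⟨.inl w, .inr (.inl (c x)), by simp, hw, le_refl (c x)⟩
      · obtain ⟨v, hv⟩ := hc j
        exact ⟨.inl v, .inr (.inr false), by simp, hv.ge, rfl⟩
      · obtain ⟨j⟩ := ‹Nonempty K›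
        have hb : b = false := by
          cases b
          · rfl
          · exact absurd rfl hx
        subst hb
        exact ⟨.inr (.inl j), .inr (.inr true), by simp, rfl, by simp [gA]⟩
    have hone : ∀ y, gA A c (.inr (.inr true)) y → y = .inr (.inr false) := by
      rintro (x | j | b) h <;> simp only [gA] at h
      · cases h
      · cases b
        · rfl
        · exact absurd rfl h
    have hl : τ (.inr (.inr true)) = .inr (.inr true) := by
      by_contra hcon
      obtain ⟨y, y', hne, h1, h2⟩ := htwo _ hcon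
      obtain ⟨u, rfl⟩ := τ.surjective y
      obtain ⟨u', rfl⟩ := τ.surjective y'
      rw [hadj] at h1 h2
      rw [hone _ h1, hone _ h2] at hne
      exact hne rfl
    have hz : τ (.inr (.inr false)) = .inr (.inr false) := by
      apply hone
      rw [← hl, hadj]
      simp [gA]
    have hW : ∀ j : K, ∃ k : K, τ (.inr (.inl j)) = .inr (.inl k) := by
      intro j
      have h1 : gA A c (τ (.inr (.inr false))) (τ (.inr (.inl j))) := by
        rw [hadj]; rfl
      rw [hz] at h1
      have h2 : τ (.inr (.inl j)) ≠ .inr (.inr true) := by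
        rw [← hl]
        intro h
        cases τ.injective h
      revert h1 h2
      rcases τ (.inr (.inl j)) with x | k | b
      · intro h; cases h
      · intro _ _; exact ⟨k, rfl⟩
      · intro h1 h2
        cases b
        · exact absurd rfl h1
        · exact absurd rfl h2
    choose π hπ using hW
    have hV : ∀ x : V, ∃ y : V, τ (.inl x) = .inl y := by
      intro x
      have h1 : ¬ gA A c (τ (.inr (.inr false))) (τ (.inl x)) := by
        rw [hadj]; exact id
      rw [hz] at h1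
      have h2 : τ (.inl x) ≠ .inr (.inr false) := by
        rw [← hz]
        intro h
        cases τ.injective h
      revert h1 h2
      rcases τ (.inl x) with y | k | b
      · intro _ _; exact ⟨y, rfl⟩
      · intro h _; exact absurd rfl h
      · intro h1 h2
        cases b
        · exact absurd rfl h2
        · exact absurd (by simp [gA]) h1
    choose σ hσ using hV
    have hσi : Function.Injective σ := by
      intro x y h
      have : τ (.inl x) = τ (.inl y) := by rw [hσ, hσ, h]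
      exact Sum.inl_injective (τ.injective this)
    have hπi : Function.Injective π := by
      intro x y h
      have : τ (.inr (.inl x)) = τ (.inr (.inl y)) := by rw [hπ, hπ, h]
      exact Sum.inl_injective (Sum.inr_injective (τ.injective this))
    have hle : ∀ j x, π j ≤ c (σ x) ↔ j ≤ c x := by
      intro j x
      have := hadj (.inl x) (.inr (.inl j))
      rw [hσ, hπ] at this
      exact this
    have hmono : Monotone π := by
      intro j j' hj
      obtain ⟨v, hv⟩ := hc (π j')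
      obtain ⟨u, rfl⟩ := (Finite.injective_iff_surjective.mp hσi) v
      rw [← hv, hle]
      exact hj.trans ((hle j' u).mp hv.ge)
    have hsm := hmono.strictMono_of_injective hπi
    have hπid : ∀ j, π j = j := fun j => le_antisymm hsm.apply_le hsm.le_apply
    obtain ⟨g, hg⟩ := hcl σ hσi (fun x y => by
      have := hadj (.inl x) (.inl y)
      rw [hσ, hσ] at this
      exact this) (fun x => by
      apply eq_of_forall_le_iff
      intro j
      rw [← hle j x, hπid])
    refine ⟨g, ?_⟩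
    ext x
    rcases x with x | j | b
    · change ψ g (.inl x) = _
      rw [hψ1, hσ, hg]
    · change ψ g (.inr _) = _
      rw [hψ2, hπ, hπid]
    · change ψ g (.inr _) = _
      rw [hψ2]
      cases b
      · exact hz.symm
      · exact hl.symm
  refine ⟨V ⊕ K ⊕ Bool, inferInstance, Γ, MulEquiv.ofBijective Ψ ⟨hinj, hsurj⟩,
    ⟨B0.image Sum.inl, by rw [Finset.card_image_of_injective _ Sum.inl_injective, hB0c], ?_⟩, ?_⟩
  · intro g hg
    apply hB0 g
    intro x hx
    have : ψ g (.inl x) = .inl x := hg _ (Finset.mem_image_of_mem _ hx)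
    rw [hψ1] at this
    exact Sum.inl_injective this
  · rintro k ⟨B, rfl, hB⟩
    refine (hlow ⟨B.toLeft, rfl, ?_⟩).trans Finset.card_toLeft_le
    intro g hg
    apply hB g
    rintro (x | x) hx
    · change ψ g (.inl x) = _
      rw [hψ1, hg x (Finset.mem_toLeft.mpr hx)]
    · rfl

end gadget

section build

/-- Kinds of vertices: polygon vertices, edge midpoints, flags with a sign. -/
inductive Kd : Type
  | P : Kd
  | M : Kd
  | F : Bool → Kd
  deriving DecidableEq

instance : Finite Kd := by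
  refine Finite.of_surjective
    (fun x : Bool ⊕ Bool => Sum.elim (fun b => if b then Kd.P else Kd.M) Kd.F x) ?_
  rintro (_ | _ | s)
  · exact ⟨.inl true, rfl⟩
  · exact ⟨.inl false, rfl⟩
  · exact ⟨.inr s, rfl⟩

/-- Reflections change the sign of a flag. -/
def flip : Kd → Kd
  | .P => .P
  | .M => .M
  | .F s => .F (!s)

/-- Colour of a kind. -/
def kc : Kd → Fin 3
  | .P => 0
  | .M => 1
  | .F _ => 2

/-- Shift used by reflections. -/
def dl (n : ℕ) : Kd → ZMod n
  | .M => 1
  | _ => 0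

variable {n m : ℕ} (d f e : Fin m → ZMod n)

/-- Modulus of an orbit. -/
def sz (i : Fin m) : Kd → ZMod n
  | .P => d i
  | .M => f i
  | .F _ => e i

lemma sz_flip (i : Fin m) (k : Kd) : sz d f e i (flip k) = sz d f e i k := by cases k <;> rfl
lemma dl_flip (k : Kd) : dl n (flip k) = dl n k := by cases k <;> rfl
lemma kc_flip (k : Kd) : kc (flip k) = kc k := by cases k <;> rfl
lemma flip_flip (k : Kd) : flip (flip k) = k := by cases k <;> simp [flip]

/-- Congruence of labelled residues. -/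
def st : Setoid (Fin m × Kd × ZMod n) where
  r a b := a.1 = b.1 ∧ a.2.1 = b.2.1 ∧ sz d f e a.1 a.2.1 ∣ a.2.2 - b.2.2
  iseqv := ⟨fun a => ⟨rfl, rfl, by simp⟩, by
    rintro ⟨i, k, t⟩ ⟨j, l, u⟩ ⟨rfl, rfl, h⟩
    exact ⟨rfl, rfl, dvd_sub_comm.mp h⟩, by
    rintro ⟨i, k, t⟩ ⟨j, l, u⟩ ⟨j', l', u'⟩ ⟨rfl, rfl, h⟩ ⟨rfl, rfl, h'⟩
    exact ⟨rfl, rfl, by simpa using dvd_add h h'⟩⟩

/-- Vertices. -/
def Vx : Type := Quotient (st d f e)

/-- A vertex from a label and a residue. -/
def mk (i : Fin m) (k : Kd) (t : ZMod n) : Vx d f e := Quotient.mk (st d f e) (i, k, t)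

lemma mk_eq {i j : Fin m} {k l : Kd} {t u : ZMod n} :
    mk d f e i k t = mk d f e j l u ↔ i = j ∧ k = l ∧ sz d f e i k ∣ t - u :=
  Quotient.eq (r := st d f e)

lemma mk_ind {p : Vx d f e → Prop} (h : ∀ i k t, p (mk d f e i k t)) (x : Vx d f e) : p x :=
  Quotient.ind (s := st d f e) (fun a => h a.1 a.2.1 a.2.2) x

/-- The action on vertices. -/
def act2 : DihedralGroup n → Vx d f e → Vx d f e
  | r a => Quotient.map' (s₁ := st d f e) (s₂ := st d f e) (fun x => (x.1, x.2.1, x.2.2 + a)) (by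
      rintro ⟨i, k, t⟩ ⟨j, l, u⟩ ⟨rfl, rfl, h⟩
      exact ⟨rfl, rfl, by simpa using h⟩)
  | sr a => Quotient.map' (s₁ := st d f e) (s₂ := st d f e)
      (fun x => (x.1, flip x.2.1, -x.2.2 - a - dl n x.2.1)) (by
      rintro ⟨i, k, t⟩ ⟨j, l, u⟩ ⟨rfl, rfl, h⟩
      refine ⟨rfl, rfl, ?_⟩
      change sz d f e i (flip k) ∣ (-t - a - dl n k) - (-u - a - dl n k)
      rw [sz_flip]
      have h' : sz d f e i k ∣ t - u := h
      convert dvd_neg.mpr h' using 1
      ring)

lemma act2_r (a : ZMod n) (i : Fin m) (k : Kd) (t : ZMod n) :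
    act2 d f e (r a) (mk d f e i k t) = mk d f e i k (t + a) := rfl

lemma act2_sr (a : ZMod n) (i : Fin m) (k : Kd) (t : ZMod n) :
    act2 d f e (sr a) (mk d f e i k t) = mk d f e i (flip k) (-t - a - dl n k) := rfl

instance : MulAction (DihedralGroup n) (Vx d f e) where
  smul := act2 d f e
  one_smul := by
    refine mk_ind d f e (fun i k t => ?_)
    change act2 d f e (r 0) _ = _
    rw [act2_r, add_zero]
  mul_smul := by
    rintro (a | a) (b | b) <;> refine mk_ind d f e (fun i k t => ?_)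
    · change act2 d f e (r (a + b)) _ = act2 d f e (r a) (act2 d f e (r b) _)
      simp only [act2_r]
      congr 1
      ring
    · change act2 d f e (sr (b - a)) _ = act2 d f e (r a) (act2 d f e (sr b) _)
      simp only [act2_r, act2_sr]
      congr 1
      ring
    · change act2 d f e (sr (a + b)) _ = act2 d f e (sr a) (act2 d f e (r b) _)
      simp only [act2_r, act2_sr]
      congr 1
      ring
    · change act2 d f e (r (b - a)) _ = act2 d f e (sr a) (act2 d f e (sr b) _)
      simp only [act2_r, act2_sr, flip_flip, dl_flip]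
      congr 1
      ring

lemma r_mk (a : ZMod n) (i : Fin m) (k : Kd) (t : ZMod n) :
    (r a : DihedralGroup n) • (mk d f e i k t) = mk d f e i k (t + a) := rfl

lemma sr_mk (a : ZMod n) (i : Fin m) (k : Kd) (t : ZMod n) :
    (sr a : DihedralGroup n) • (mk d f e i k t) = mk d f e i (flip k) (-t - a - dl n k) := rfl

/-- Colour of a vertex. -/
def col : Vx d f e → Fin (m * 3) :=
  Quotient.lift (s := st d f e) (fun x => finProdFinEquiv (x.1, kc x.2.1)) (by
    rintro ⟨i, k, t⟩ ⟨j, l, u⟩ ⟨rfl, rfl, h⟩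
    rfl)

lemma col_mk (i : Fin m) (k : Kd) (t : ZMod n) :
    col d f e (mk d f e i k t) = finProdFinEquiv (i, kc k) := rfl

/-- Directed edges. -/
def R (x y : Vx d f e) : Prop :=
  ∃ i t, (x = mk d f e i .P t ∧ y = mk d f e i .M t) ∨
    (x = mk d f e i .P (t + 1) ∧ y = mk d f e i .M t) ∨
    (∃ s, x = mk d f e i .P t ∧ y = mk d f e i (.F s) t) ∨
    (x = mk d f e i .M t ∧ y = mk d f e i (.F true) t) ∨
    (x = mk d f e i .M t ∧ y = mk d f e i (.F false) (t + 1)) ∨
    (∃ j s u, x = mk d f e i (.F s) t ∧ y = mk d f e j (.F s) u)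

/-- Adjacency. -/
def Ad (x y : Vx d f e) : Prop := x ≠ y ∧ (R d f e x y ∨ R d f e y x)

lemma R_inv (g : DihedralGroup n) (x y : Vx d f e) (h : R d f e x y) :
    R d f e (g • x) (g • y) := by
  obtain ⟨i, t, h⟩ := h
  cases g with
  | r a =>
    refine ⟨i, t + a, ?_⟩
    have e1 : t + 1 + a = t + a + 1 := by ring
    rcases h with ⟨rfl, rfl⟩ | ⟨rfl, rfl⟩ | ⟨s, rfl, rfl⟩ | ⟨rfl, rfl⟩ | ⟨rfl, rfl⟩ |
      ⟨j, s, u, rfl, rfl⟩
    · exact Or.inl ⟨rfl, rfl⟩
    · exact Or.inr (Or.inl ⟨by rw [← e1]; rfl, rfl⟩)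
    · exact Or.inr (Or.inr (Or.inl ⟨s, rfl, rfl⟩))
    · exact Or.inr (Or.inr (Or.inr (Or.inl ⟨rfl, rfl⟩)))
    · exact Or.inr (Or.inr (Or.inr (Or.inr (Or.inl ⟨rfl, by rw [← e1]; rfl⟩))))
    · exact Or.inr (Or.inr (Or.inr (Or.inr (Or.inr ⟨j, s, u + a, rfl, rfl⟩))))
  | sr a =>
    have e1 : -t - a - 0 = -t - a - 1 + 1 := by ring
    have e2 : -(t + 1) - a - 0 = -t - a - 1 := by ring
    rcases h with ⟨rfl, rfl⟩ | ⟨rfl, rfl⟩ | ⟨s, rfl, rfl⟩ | ⟨rfl, rfl⟩ | ⟨rfl, rfl⟩ |
      ⟨j, s, u, rfl, rfl⟩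
    · exact ⟨i, -t - a - 1, Or.inr (Or.inl ⟨by rw [← e1]; rfl, rfl⟩)⟩
    · exact ⟨i, -t - a - 1, Or.inl ⟨by rw [← e2]; rfl, rfl⟩⟩
    · exact ⟨i, -t - a - 0, Or.inr (Or.inr (Or.inl ⟨!s, rfl, rfl⟩))⟩
    · exact ⟨i, -t - a - 1,
        Or.inr (Or.inr (Or.inr (Or.inr (Or.inl ⟨rfl, by rw [← e1]; rfl⟩))))⟩
    · exact ⟨i, -t - a - 1, Or.inr (Or.inr (Or.inr (Or.inl ⟨rfl, by rw [← e2]; rfl⟩)))⟩
    · exact ⟨i, -t - a - 0,
        Or.inr (Or.inr (Or.inr (Or.inr (Or.inr ⟨j, !s, -u - a - 0, rfl, rfl⟩))))⟩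

lemma Ad_inv (g : DihedralGroup n) (x y : Vx d f e) (h : Ad d f e x y) :
    Ad d f e (g • x) (g • y) :=
  ⟨fun h' => h.1 (smul_left_cancel g h'), h.2.imp (R_inv d f e g x y) (R_inv d f e g y x)⟩

lemma inv_PM (hfd : ∀ i, f i ∣ d i) {i : Fin m} {t u : ZMod n}
    (h : Ad d f e (mk d f e i .P t) (mk d f e i .M u)) : f i ∣ u - t ∨ f i ∣ u - t + 1 := by
  obtain ⟨-, ⟨j, v, h⟩ | ⟨j, v, h⟩⟩ := h <;> simp only [mk_eq, sz, reduceCtorEq, false_and,
    and_false, exists_false, or_false, true_and] at h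
  rcases h with ⟨⟨rfl, h1⟩, -, h2⟩ | ⟨⟨rfl, h1⟩, -, h2⟩
  · left
    convert dvd_sub h2 ((hfd i).trans h1) using 1
    ring
  · right
    convert dvd_sub h2 ((hfd i).trans h1) using 1
    ring

lemma inv_PF (hed : ∀ i, e i ∣ d i) {i : Fin m} {s : Bool} {t u : ZMod n}
    (h : Ad d f e (mk d f e i .P t) (mk d f e i (.F s) u)) : e i ∣ u - t := by
  obtain ⟨-, ⟨j, v, h⟩ | ⟨j, v, h⟩⟩ := h <;> simp only [mk_eq, sz, reduceCtorEq, false_and,
    and_false, exists_false, or_false, false_or, true_and] at h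
  obtain ⟨s', ⟨rfl, h1⟩, -, -, h2⟩ := h
  convert dvd_sub h2 ((hed i).trans h1) using 1
  ring

lemma inv_MF (hef : ∀ i, e i ∣ f i) {i : Fin m} {t u : ZMod n}
    (h : Ad d f e (mk d f e i .M t) (mk d f e i (.F true) u)) : e i ∣ u - t := by
  obtain ⟨-, ⟨j, v, h⟩ | ⟨j, v, h⟩⟩ := h <;> simp only [mk_eq, sz, reduceCtorEq, false_and,
    and_false, exists_false, or_false, false_or, true_and, Kd.F.injEq] at h
  obtain ⟨⟨rfl, h1⟩, -, h2⟩ := h
  convert dvd_sub h2 ((hef i).trans h1) using 1
  ring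

lemma inv_FF {i j : Fin m} {s s' : Bool} {t u : ZMod n}
    (h : Ad d f e (mk d f e i (.F s) t) (mk d f e j (.F s') u)) : s = s' := by
  obtain ⟨-, ⟨j, v, h⟩ | ⟨j, v, h⟩⟩ := h <;> simp only [mk_eq, sz, reduceCtorEq, false_and,
    and_false, exists_false, false_or, Kd.F.injEq] at h
  · obtain ⟨_, _, _, ⟨-, h1, -⟩, -, h2, -⟩ := h
    exact h1.trans h2.symm
  · obtain ⟨_, _, _, ⟨-, h1, -⟩, -, h2, -⟩ := h
    exact h2.trans h1.symm

lemma ad_PM0 (i : Fin m) (t : ZMod n) : Ad d f e (mk d f e i .P t) (mk d f e i .M t) :=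
  ⟨by simp [mk_eq], Or.inl ⟨i, t, Or.inl ⟨rfl, rfl⟩⟩⟩
lemma ad_PM1 (i : Fin m) (t : ZMod n) : Ad d f e (mk d f e i .P (t + 1)) (mk d f e i .M t) :=
  ⟨by simp [mk_eq], Or.inl ⟨i, t, Or.inr (Or.inl ⟨rfl, rfl⟩)⟩⟩
lemma ad_PF (i : Fin m) (s : Bool) (t : ZMod n) :
    Ad d f e (mk d f e i .P t) (mk d f e i (.F s) t) :=
  ⟨by simp [mk_eq], Or.inl ⟨i, t, Or.inr (Or.inr (Or.inl ⟨s, rfl, rfl⟩))⟩⟩
lemma ad_MF (i : Fin m) (t : ZMod n) :
    Ad d f e (mk d f e i .M t) (mk d f e i (.F true) t) :=
  ⟨by simp [mk_eq], Or.inl ⟨i, t, Or.inr (Or.inr (Or.inr (Or.inl ⟨rfl, rfl⟩)))⟩⟩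
lemma ad_FF (i j : Fin m) (s : Bool) (t u : ZMod n)
    (h : mk d f e i (.F s) t ≠ mk d f e j (.F s) u) :
    Ad d f e (mk d f e i (.F s) t) (mk d f e j (.F s) u) :=
  ⟨h, Or.inl ⟨i, t, Or.inr (Or.inr (Or.inr (Or.inr (Or.inr ⟨j, s, u, rfl, rfl⟩))))⟩⟩

lemma col_kind {σ : Vx d f e → Vx d f e} (hc : ∀ x, col d f e (σ x) = col d f e x)
    (i : Fin m) (k : Kd) (t : ZMod n) :
    ∃ l u, kc l = kc k ∧ σ (mk d f e i k t) = mk d f e i l u := by
  have h := hc (mk d f e i k t)
  revert h
  refine mk_ind d f e (p := fun y => col d f e y = col d f e (mk d f e i k t) →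
    ∃ l u, kc l = kc k ∧ y = mk d f e i l u) (fun j l u h => ?_) _
  rw [col_mk, col_mk] at h
  have h2 := finProdFinEquiv.injective h
  simp only [Prod.mk.injEq] at h2
  obtain ⟨rfl, h3⟩ := h2
  exact ⟨l, u, h3, rfl⟩

lemma rigid [NeZero n] (hef : ∀ i, e i ∣ f i) (hfd : ∀ i, f i ∣ d i) (hd1 : ∀ i, ¬ d i ∣ 1)
    (hgood : ∀ i, (f i = d i ∧ ¬ e i ∣ 1) ∨ (d i = 2 ∧ f i = 1))
    (hsurj : ∀ y : Fin m → ZMod n, ∃ a, ∀ i, d i ∣ a - y i)
    (σ : Vx d f e → Vx d f e) (hi : Function.Injective σ)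
    (hA : ∀ x y, Ad d f e x y → Ad d f e (σ x) (σ y))
    (hc : ∀ x, col d f e (σ x) = col d f e x)
    (hF : ∀ i s t, ∃ u, σ (mk d f e i (.F s) t) = mk d f e i (.F s) u) :
    ∃ a : ZMod n, ∀ x, σ x = (r a : DihedralGroup n) • x := by
  have hed : ∀ i, e i ∣ d i := fun i => (hef i).trans (hfd i)
  have hP : ∀ i t, ∃ u, σ (mk d f e i .P t) = mk d f e i .P u := by
    intro i t
    obtain ⟨l, u, h1, h2⟩ := col_kind d f e hc i .P t
    cases l with
    | P => exact ⟨u, h2⟩
    | M => simp [kc] at h1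
    | F s => simp [kc] at h1
  have hM : ∀ i t, ∃ u, σ (mk d f e i .M t) = mk d f e i .M u := by
    intro i t
    obtain ⟨l, u, h1, h2⟩ := col_kind d f e hc i .M t
    cases l with
    | P => simp [kc] at h1
    | M => exact ⟨u, h2⟩
    | F s => simp [kc] at h1
  choose π hπ using hP
  choose μ hμ using hM
  choose φ hφ using hF
  have hPF : ∀ i s t, e i ∣ φ i s t - π i t := by
    intro i s t
    have := hA _ _ (ad_PF d f e i s t)
    rw [hπ, hφ] at this
    exact inv_PF d f e hed this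
  have hne : ∀ i t, ¬ d i ∣ π i (t + 1) - π i t := by
    intro i t h
    have h2 : σ (mk d f e i .P (t + 1)) = σ (mk d f e i .P t) := by
      rw [hπ, hπ, mk_eq]
      exact ⟨rfl, rfl, h⟩
    have h3 := ((mk_eq d f e).mp (hi h2)).2.2
    apply hd1 i
    simpa [sz] using h3
  have hstep : ∀ i t, f i ∣ μ i t - π i t ∧ d i ∣ π i (t + 1) - (π i t + 1) := by
    intro i t
    rcases hgood i with ⟨h1, h2⟩ | ⟨h1, h2⟩
    · have a1 := hA _ _ (ad_PM0 d f e i t)
      have a2 := hA _ _ (ad_PM1 d f e i t)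
      have a3 := hA _ _ (ad_MF d f e i t)
      rw [hπ, hμ] at a1 a2
      rw [hμ, hφ] at a3
      have b3 := inv_MF d f e hef a3
      have b1 : f i ∣ μ i t - π i t := by
        rcases inv_PM d f e hfd a1 with h | h
        · exact h
        · exfalso
          apply h2
          convert dvd_add (dvd_sub ((hef i).trans h) (hPF i true t)) b3 using 1
          ring
      refine ⟨b1, ?_⟩
      rcases inv_PM d f e hfd a2 with h | h
      · exfalso
        apply hne i t
        rw [← h1]
        convert dvd_sub b1 h using 1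
        ring
      · rw [← h1]
        convert dvd_sub b1 h using 1
        ring
    · refine ⟨by rw [h2]; exact one_dvd _, ?_⟩
      have h3 := hne i t
      rw [h1] at h3 ⊢
      obtain ⟨c, hc | hc⟩ := Nat.even_or_odd' (π i (t + 1) - π i t).val
      · exfalso
        apply h3
        rw [← ZMod.natCast_zmod_val (π i (t + 1) - π i t), hc]
        exact ⟨c, by push_cast; ring⟩
      · have h4 := ZMod.natCast_zmod_val (π i (t + 1) - π i t)
        rw [hc] at h4
        refine ⟨c, ?_⟩
        push_cast at h4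
        linear_combination -h4
  have hlin : ∀ i (k : ℕ), d i ∣ π i k - (k + π i 0) := by
    intro i k
    induction k with
    | zero => simp
    | succ k ih =>
      push_cast
      convert dvd_add ih (hstep i k).2 using 1
      ring
  obtain ⟨a, ha⟩ := hsurj (fun i => π i 0)
  have hfin : ∀ i t, d i ∣ π i t - (t + a) := by
    intro i t
    have h := hlin i t.val
    rw [ZMod.natCast_zmod_val] at h
    convert dvd_sub h (ha i) using 1
    ring
  refine ⟨a, mk_ind d f e (fun i k t => ?_)⟩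
  rw [r_mk]
  cases k with
  | P =>
    rw [hπ, mk_eq]
    exact ⟨rfl, rfl, hfin i t⟩
  | M =>
    rw [hμ, mk_eq]
    refine ⟨rfl, rfl, ?_⟩
    change f i ∣ _
    convert dvd_add (hstep i t).1 ((hfd i).trans (hfin i t)) using 1
    ring
  | F s =>
    rw [hφ, mk_eq]
    refine ⟨rfl, rfl, ?_⟩
    change e i ∣ _
    convert dvd_add (hPF i s t) ((hed i).trans (hfin i t)) using 1
    ring

lemma col_smul (g : DihedralGroup n) (x : Vx d f e) : col d f e (g • x) = col d f e x := by
  revert x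
  refine mk_ind d f e (fun i k t => ?_)
  cases g with
  | r a => rfl
  | sr a => rw [sr_mk, col_mk, col_mk, kc_flip]

lemma det_mem [NeZero n] (hm : 1 ≤ m) (hef : ∀ i, e i ∣ f i) (hfd : ∀ i, f i ∣ d i)
    (hd1 : ∀ i, ¬ d i ∣ 1)
    (hgood : ∀ i, (f i = d i ∧ ¬ e i ∣ 1) ∨ (d i = 2 ∧ f i = 1))
    (hsurj : ∀ y : Fin m → ZMod n, ∃ a, ∀ i, d i ∣ a - y i) (b : ℕ)
    (hb : IsLeast {k | ∃ B : Finset (Vx d f e), B.card = k ∧
      ∀ g : DihedralGroup n, (∀ x ∈ B, g • x = x) → g = 1} b) :
    b ∈ DetSizes (DihedralGroup n) := by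
  have : Finite (Vx d f e) := Quotient.finite _
  have : Nonempty (Fin (m * 3)) := ⟨⟨0, by omega⟩⟩
  refine gadget (Ad d f e) (fun x y h => ⟨h.1.symm, h.2.symm⟩) (fun x h => h.1 rfl)
    (Ad_inv d f e) (col d f e) ?_ (col_smul d f e) ?_ ?_ b hb
  · intro j
    obtain ⟨⟨i, k⟩, rfl⟩ := finProdFinEquiv.surjective j
    fin_cases k
    · exact ⟨mk d f e i .P 0, rfl⟩
    · exact ⟨mk d f e i .M 0, rfl⟩
    · exact ⟨mk d f e i (.F true) 0, rfl⟩
  · refine mk_ind d f e (fun i k t => ?_)
    cases k with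
    | P => exact ⟨_, ad_PM0 d f e i t⟩
    | M => exact ⟨_, (ad_PM0 d f e i t).1.symm, (ad_PM0 d f e i t).2.symm⟩
    | F s => exact ⟨_, (ad_PF d f e i s t).1.symm, (ad_PF d f e i s t).2.symm⟩
  · intro σ hi hA hc
    have hF : ∀ i s t, ∃ s' u, σ (mk d f e i (.F s) t) = mk d f e i (.F s') u := by
      intro i s t
      obtain ⟨l, u, h1, h2⟩ := col_kind d f e hc i (.F s) t
      cases l with
      | P => simp [kc] at h1
      | M => simp [kc] at h1
      | F s' => exact ⟨s', u, h2⟩
    choose sg φ hφ using hF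
    have h1 : ∀ i j s t u, sg i s t = sg j s u := by
      intro i j s t u
      by_cases h : mk d f e i (.F s) t = mk d f e j (.F s) u
      · have h2 := congrArg σ h
        rw [hφ, hφ, mk_eq] at h2
        exact Kd.F.inj h2.2.1
      · have h2 := (hA _ _).mpr (ad_FF d f e i j s t u h)
        rw [hφ, hφ] at h2
        exact inv_FF d f e h2
    have h2 : ∀ i t, sg i true t ≠ sg i false t := by
      intro i t h
      have h3 : σ (mk d f e i (.F true) t) ≠ σ (mk d f e i (.F false) t) := by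
        intro h4
        have := hi h4
        simp [mk_eq] at this
      have h4 : Ad d f e (σ (mk d f e i (.F true) t)) (σ (mk d f e i (.F false) t)) := by
        rw [hφ, hφ, h] at h3 ⊢
        exact ad_FF d f e _ _ _ _ _ h3
      have h5 := inv_FF d f e ((hA _ _).mp h4)
      cases h5
    let i0 : Fin m := ⟨0, hm⟩
    by_cases h0 : sg i0 true 0 = true
    · obtain ⟨a, ha⟩ := rigid d f e hef hfd hd1 hgood hsurj σ hi (fun x y => (hA x y).mpr) hc (by
        intro i s t
        have e1 : sg i true t = true := (h1 i i0 true t 0).trans h0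
        have e2 : sg i s t = s := by
          cases s
          · have := h2 i t
            rw [e1] at this
            simpa using this.symm
          · exact e1
        exact ⟨φ i s t, by rw [hφ, e2]⟩)
      exact ⟨r a, ha⟩
    · obtain ⟨a, ha⟩ := rigid d f e hef hfd hd1 hgood hsurj
        (fun x => (sr 0 : DihedralGroup n) • σ x)
        (fun x y h => hi (smul_left_cancel _ h))
        (fun x y h => Ad_inv d f e _ _ _ ((hA x y).mpr h))
        (fun x => (col_smul d f e _ _).trans (hc x)) (by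
        intro i s t
        have e1 : sg i true t = false := by
          rw [h1 i i0 true t 0]
          simpa using h0
        have e2 : (!sg i s t) = s := by
          cases s
          · have := h2 i t
            rw [e1] at this
            simpa using this.symm
          · simp [e1]
        refine ⟨-φ i s t - 0 - 0, ?_⟩
        rw [hφ, sr_mk]
        simp only [flip, dl, e2])
      refine ⟨sr 0 * r a, fun x => ?_⟩
      rw [mul_smul, ← ha x, ← mul_smul, sr_mul_self, one_smul]

/-- Block of a vertex. -/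
def blk : Vx d f e → Fin m :=
  Quotient.lift (s := st d f e) (fun x => x.1) (fun _ _ h => h.1)

lemma r_fix2 (a : ZMod n) (i : Fin m) (k : Kd) (t : ZMod n) :
    (r a : DihedralGroup n) • (mk d f e i k t) = mk d f e i k t ↔ sz d f e i k ∣ a := by
  rw [r_mk, mk_eq]
  simp

lemma sz_dvd (hef : ∀ i, e i ∣ f i) (hfd : ∀ i, f i ∣ d i) (i : Fin m) (k : Kd) :
    sz d f e i k ∣ d i := by
  cases k
  · exact dvd_rfl
  · exact hfd i
  · exact (hef i).trans (hfd i)

lemma least_low (hef : ∀ i, e i ∣ f i) (hfd : ∀ i, f i ∣ d i) (hd1 : ∀ i, ¬ d i ∣ 1)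
    (hsurj : ∀ y : Fin m → ZMod n, ∃ a, ∀ i, d i ∣ a - y i)
    (hinj : ∀ a : ZMod n, (∀ i, d i ∣ a) → a = 0) (i0 : Fin m) (h0 : e i0 = d i0) :
    IsLeast {k | ∃ B : Finset (Vx d f e), B.card = k ∧
      ∀ g : DihedralGroup n, (∀ x ∈ B, g • x = x) → g = 1} m := by
  classical
  have hlow : ∀ B : Finset (Vx d f e),
      (∀ g : DihedralGroup n, (∀ x ∈ B, g • x = x) → g = 1) → m ≤ B.card := by
    intro B hB
    have hall : ∀ i, i ∈ B.image (blk d f e) := by
      intro i
      by_contra hi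
      obtain ⟨a, ha⟩ := hsurj (fun j => if j = i then 1 else 0)
      have h6 := hB (r a) (by
        refine mk_ind d f e (fun j k t hx => ?_)
        rw [r_fix2]
        have hji : j ≠ i := by
          rintro rfl
          exact hi (Finset.mem_image.mpr ⟨_, hx, rfl⟩)
        have := ha j
        simp only [hji, if_false, sub_zero] at this
        exact (sz_dvd d f e hef hfd j k).trans this)
      rw [one_def] at h6
      have h7 : a = 0 := by injection h6
      have h8 := ha i
      rw [h7] at h8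
      apply hd1 i
      simpa using h8
    have h2 : (B.image (blk d f e)) = Finset.univ := Finset.eq_univ_iff_forall.mpr hall
    have h3 := Finset.card_image_le (s := B) (f := blk d f e)
    rw [h2] at h3
    simpa using h3
  let z : Fin m → Vx d f e := fun i =>
    if i = i0 then mk d f e i (.F true) 0 else mk d f e i .P 0
  have hB1 : ∀ g : DihedralGroup n, (∀ x ∈ Finset.univ.image z, g • x = x) → g = 1 := by
    intro g hg
    have hz : ∀ i, g • z i = z i := fun i =>
      hg _ (Finset.mem_image_of_mem _ (Finset.mem_univ _))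
    cases g with
    | r a =>
      rw [hinj a (fun i => ?_)]
      · rfl
      · have := hz i
        by_cases hi : i = i0
        · simp only [z, if_pos hi, r_fix2, sz] at this
          rw [hi, ← h0, ← hi]
          exact this
        · simp only [z, if_neg hi, r_fix2, sz] at this
          exact this
    | sr a =>
      have := hz i0
      simp [z, sr_mk, mk_eq, flip] at this
  refine ⟨⟨_, le_antisymm ?_ (hlow _ hB1), hB1⟩, ?_⟩
  · simpa using Finset.card_image_le (s := Finset.univ) (f := z)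
  · rintro k ⟨B, rfl, hB⟩
    exact hlow B hB

lemma least_high (hef : ∀ i, e i ∣ f i) (hfd : ∀ i, f i ∣ d i) (hde : ∀ i, ¬ d i ∣ e i)
    (hsurj : ∀ y : Fin m → ZMod n, ∃ a, ∀ i, d i ∣ a - y i)
    (hinj : ∀ a : ZMod n, (∀ i, d i ∣ a) → a = 0) (i0 : Fin m) :
    IsLeast {k | ∃ B : Finset (Vx d f e), B.card = k ∧
      ∀ g : DihedralGroup n, (∀ x ∈ B, g • x = x) → g = 1} (m + 1) := by
  classical
  have hlow : ∀ B : Finset (Vx d f e),
      (∀ g : DihedralGroup n, (∀ x ∈ B, g • x = x) → g = 1) → m + 1 ≤ B.card := by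
    intro B hB
    by_contra hlt
    have hall : ∀ i, ∃ k t, flip k = k ∧ mk d f e i k t ∈ B := by
      intro i
      by_contra hi
      push Not at hi
      obtain ⟨a, ha⟩ := hsurj (fun j => if j = i then e i else 0)
      have h6 := hB (r a) (by
        refine mk_ind d f e (fun j k t hx => ?_)
        rw [r_fix2]
        have := ha j
        by_cases hji : j = i
        · subst hji
          simp only [if_true] at this
          cases k with
          | P => exact absurd hx (hi _ _ rfl)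
          | M => exact absurd hx (hi _ _ rfl)
          | F s =>
            change e j ∣ a
            simpa using dvd_add (((hef j).trans (hfd j)).trans this) (dvd_refl (e j))
        · simp only [hji, if_false, sub_zero] at this
          exact (sz_dvd d f e hef hfd j k).trans this)
      rw [one_def] at h6
      have h7 : a = 0 := by injection h6
      have h8 := ha i
      rw [h7] at h8
      apply hde i
      simpa using h8
    choose k y hk hy using hall
    let u : Fin m → Vx d f e := fun i => mk d f e i (k i) (y i)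
    have hu : Function.Injective u := fun i j hij => ((mk_eq d f e).mp hij).1
    have hsub : Finset.univ.image u ⊆ B := by
      intro x hx
      obtain ⟨i, -, rfl⟩ := Finset.mem_image.mp hx
      exact hy i
    have heq : Finset.univ.image u = B := by
      apply Finset.eq_of_subset_of_card_le hsub
      rw [Finset.card_image_of_injective _ hu]
      simp only [Finset.card_univ, Fintype.card_fin]
      omega
    obtain ⟨a, ha⟩ := hsurj (fun i => -2 * y i - dl n (k i))
    have h6 := hB (sr a) (by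
      intro x hx
      rw [← heq] at hx
      obtain ⟨i, -, rfl⟩ := Finset.mem_image.mp hx
      simp only [u]
      rw [sr_mk, hk, mk_eq]
      refine ⟨rfl, rfl, (sz_dvd d f e hef hfd i (k i)).trans ?_⟩
      convert dvd_neg.mpr (ha i) using 1
      ring)
    rw [one_def] at h6
    cases h6
  let z : Fin m → Vx d f e := fun i => mk d f e i .P 0
  have hB1 : ∀ g : DihedralGroup n,
      (∀ x ∈ insert (mk d f e i0 (.F true) 0) (Finset.univ.image z), g • x = x) → g = 1 := by
    intro g hg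
    have hz : ∀ i, g • z i = z i := fun i =>
      hg _ (Finset.mem_insert_of_mem (Finset.mem_image_of_mem _ (Finset.mem_univ _)))
    have hw := hg _ (Finset.mem_insert_self _ _)
    cases g with
    | r a =>
      rw [hinj a (fun i => (r_fix2 d f e a i .P 0).mp (hz i))]
      rfl
    | sr a =>
      simp [sr_mk, mk_eq, flip] at hw
  refine ⟨⟨_, le_antisymm ?_ (hlow _ hB1), hB1⟩, ?_⟩
  · refine (Finset.card_insert_le _ _).trans ?_
    have := Finset.card_image_le (s := Finset.univ) (f := z)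
    simp only [Finset.card_univ, Fintype.card_fin] at this
    omega
  · rintro k ⟨B, rfl, hB⟩
    exact hlow B hB

end build

lemma cyc {d : ℕ} [NeZero d] (π : ZMod d → ZMod d) (hi : Function.Injective π)
    (h : ∀ x, π (x + 1) = π x + 1 ∨ π x = π (x + 1) + 1) :
    ∃ ε : ZMod d, (ε = 1 ∨ ε = -1) ∧ ∀ x, π x = π 0 + ε * x := by
  refine ⟨π (0 + 1) - π 0, ?_, ?_⟩
  · rcases h 0 with h | h
    · left; linear_combination h
    · right; linear_combination -h
  · have h1 : ∀ x, π (x + 1 + 1) - π (x + 1) = π (x + 1) - π x := by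
      intro x
      have key : π (x + 1 + 1) = π x → (2 : ZMod d) = 0 := fun h3 => by
        have := hi h3
        linear_combination this
      rcases h x with a | a <;> rcases h (x + 1) with b | b
      · linear_combination b - a
      · have h2 := key (by linear_combination a - b)
        linear_combination -b - a - h2
      · have h2 := key (by linear_combination b - a)
        linear_combination b + a + h2
      · linear_combination a - b
    have h2 : ∀ k : ℕ, π (k + 1) - π k = π (0 + 1) - π 0 ∧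
        π k = π 0 + (π (0 + 1) - π 0) * k := by
      intro k
      induction k with
      | zero => simp
      | succ k ih =>
        push_cast
        exact ⟨(h1 k).trans ih.1, by linear_combination ih.1 + ih.2⟩
    intro x
    have := (h2 x.val).2
    rwa [ZMod.natCast_zmod_val] at this

lemma det_cycle {m : ℕ} (d : Fin m → ℕ) (hc : Pairwise (Function.onFun Nat.Coprime d))
    (h1 : ∀ i, 1 < d i) (h3 : 3 ≤ ∏ j, d j) (i0 : Fin m) (hrest : ∀ i, i ≠ i0 → d i = 2) :
    m + 1 ∈ DetSizes (DihedralGroup (∏ j, d j)) := by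
  have : ∀ i, NeZero (d i) := fun i => ⟨by have := h1 i; omega⟩
  have hfin : Finite (Pt d) := inferInstanceAs (Finite (Σ i : Fin m, ZMod (d i)))
  have : Nonempty (Fin m) := ⟨i0⟩
  have hr : ∀ (a : ZMod (∏ j, d j)) (i : Fin m) (x : ZMod (d i)),
      (r a : DihedralGroup (∏ j, d j)) • (show Pt d from ⟨i, x⟩) =
        (show Pt d from ⟨i, x + ph d i a⟩) := fun _ _ _ => rfl
  have hs : ∀ (a : ZMod (∏ j, d j)) (i : Fin m) (x : ZMod (d i)),
      (sr a : DihedralGroup (∏ j, d j)) • (show Pt d from ⟨i, x⟩) =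
        (show Pt d from ⟨i, -x - ph d i a⟩) := fun _ _ _ => rfl
  have hne : ∀ u : Pt d, u ≠ (r 1 : DihedralGroup (∏ j, d j)) • u := by
    rintro ⟨i, x⟩ h
    have h2 := (r_fix d 1 i x).mp h.symm
    rw [map_one] at h2
    have : Fact (1 < d i) := ⟨h1 i⟩
    exact one_ne_zero h2
  refine gadget (G := DihedralGroup (∏ j, d j)) (V := Pt d)
    (fun u v => v = (r 1 : DihedralGroup (∏ j, d j)) • u ∨
      u = (r 1 : DihedralGroup (∏ j, d j)) • v)
    (fun x y h => h.symm) (fun x h => hne x (h.elim id id)) ?_ (fun u => u.1)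
    (fun i => ⟨⟨i, 0⟩, rfl⟩) ?_ (fun v => ⟨_, Or.inl rfl⟩) ?_ _ (realise0 d hc h1 h3)
  · have key : ∀ (g : DihedralGroup (∏ j, d j)) (x : Pt d),
        g • (r 1 : DihedralGroup (∏ j, d j)) • x = (r 1 : DihedralGroup (∏ j, d j)) • g • x ∨
        g • x = (r 1 : DihedralGroup (∏ j, d j)) • g • (r 1 : DihedralGroup (∏ j, d j)) • x := by
      rintro (a | a) x
      · left
        rw [← mul_smul, ← mul_smul, r_mul_r, r_mul_r, add_comm]
      · right
        rw [← mul_smul, ← mul_smul, r_mul_sr, sr_mul_r, sub_add_cancel]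
    rintro g x y (rfl | rfl)
    · exact key g x
    · exact (key g y).symm
  · rintro (a | a) ⟨i, x⟩ <;> rfl
  · intro σ hi hA hcol
    have hP : ∀ i (x : ZMod (d i)), ∃ y : ZMod (d i), σ ⟨i, x⟩ = ⟨i, y⟩ := by
      intro i x
      have h := hcol ⟨i, x⟩
      revert h
      rcases σ ⟨i, x⟩ with ⟨j, y⟩
      rintro (rfl : j = i)
      exact ⟨y, rfl⟩
    choose π hπ using hP
    have hcy : ∀ i, ∃ ε : ZMod (d i), (ε = 1 ∨ ε = -1) ∧ ∀ x, π i x = π i 0 + ε * x := by
      intro i
      apply cyc (π i)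
      · intro x y h
        have h2 : σ ⟨i, x⟩ = σ ⟨i, y⟩ := by rw [hπ, hπ, h]
        exact eq_of_heq (Sigma.mk.inj (hi h2)).2
      · intro x
        have h2 := (hA ⟨i, x⟩ ⟨i, x + 1⟩).mpr (Or.inl (by rw [hr, map_one]))
        rw [hπ, hπ, hr, hr, map_one] at h2
        have key : ∀ u v : ZMod (d i), (show Pt d from ⟨i, u⟩) = (show Pt d from ⟨i, v⟩) →
            u = v := fun u v h => eq_of_heq (Sigma.mk.inj (β := fun j => ZMod (d j)) h).2
        exact h2.imp (key _ _) (key _ _)
    choose ε hε hlin using hcy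
    have h2 : ∀ i, i ≠ i0 → (2 : ZMod (d i)) = 0 := by
      intro i hi0
      have h4 : ((d i : ℕ) : ZMod (d i)) = 0 := ZMod.natCast_self _
      have h5 : ((d i : ℕ) : ZMod (d i)) = ((2 : ℕ) : ZMod (d i)) :=
        congrArg (fun k : ℕ => (k : ZMod (d i))) (hrest i hi0)
      rw [h5] at h4
      exact_mod_cast h4
    rcases hε i0 with h0 | h0
    · obtain ⟨a, ha⟩ := crt_surj d hc (fun i => π i 0)
      refine ⟨r a, ?_⟩
      rintro ⟨i, x⟩
      rw [hπ, hr, ha, hlin]
      have h6 : ε i = 1 := by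
        by_cases hi0 : i = i0
        · subst hi0; exact h0
        · rcases hε i with h | h
          · exact h
          · linear_combination h - h2 i hi0
      rw [h6]
      congr 1
      ring
    · obtain ⟨a, ha⟩ := crt_surj d hc (fun i => -π i 0)
      refine ⟨sr a, ?_⟩
      rintro ⟨i, x⟩
      rw [hπ, hs, ha, hlin]
      have h6 : ε i = -1 := by
        by_cases hi0 : i = i0
        · subst hi0; exact h0
        · rcases hε i with h | h
          · linear_combination h + h2 i hi0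
          · exact h
      rw [h6]
      congr 1
      ring

lemma dvd_iff_cast {n a : ℕ} [NeZero n] (h : a ∣ n) (t : ZMod n) :
    (a : ZMod n) ∣ t ↔ ZMod.castHom h (ZMod a) t = 0 := by
  constructor
  · rintro ⟨c, rfl⟩
    rw [map_mul, map_natCast, ZMod.natCast_self, zero_mul]
  · intro h2
    rw [← ZMod.natCast_zmod_val t] at h2 ⊢
    rw [map_natCast, ZMod.natCast_eq_zero_iff] at h2
    exact Nat.cast_dvd_cast h2

lemma cast_dvd_iff {n a b : ℕ} [NeZero n] (h : a ∣ n) : (a : ZMod n) ∣ (b : ZMod n) ↔ a ∣ b := by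
  rw [dvd_iff_cast h, map_natCast, ZMod.natCast_eq_zero_iff]

lemma det_both {m : ℕ} (d e : Fin m → ℕ) (hc : Pairwise (Function.onFun Nat.Coprime d))
    (h1 : ∀ i, 1 < d i) (he : ∀ i, d i ≠ 2 → e i ∣ d i ∧ 1 < e i) (i0 : Fin m) :
    ((d i0 ≠ 2 ∧ e i0 = d i0) → m ∈ DetSizes (DihedralGroup (∏ j, d j))) ∧
    ((∀ i, d i ≠ 2 → e i < d i) → m + 1 ∈ DetSizes (DihedralGroup (∏ j, d j))) := by
  have : NeZero (∏ j, d j) := ⟨Finset.prod_ne_zero_iff.mpr (fun i _ => by have := h1 i; omega)⟩
  have hdn : ∀ i, d i ∣ ∏ j, d j := fun i => Finset.dvd_prod_of_mem d (Finset.mem_univ i)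
  let D : Fin m → ZMod (∏ j, d j) := fun i => d i
  let F : Fin m → ZMod (∏ j, d j) := fun i => if d i = 2 then 1 else d i
  let E : Fin m → ZMod (∏ j, d j) := fun i => if d i = 2 then 1 else e i
  have hef : ∀ i, E i ∣ F i := by
    intro i
    by_cases h : d i = 2
    · simp only [E, F, if_pos h, dvd_rfl]
    · simp only [E, F, if_neg h]
      exact Nat.cast_dvd_cast (he i h).1
  have hfd : ∀ i, F i ∣ D i := by
    intro i
    by_cases h : d i = 2
    · simp only [F, if_pos h, one_dvd]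
    · simp only [F, D, if_neg h, dvd_rfl]
  have hd1 : ∀ i, ¬ D i ∣ 1 := by
    intro i h
    have h2 : ((d i : ℕ) : ZMod (∏ j, d j)) ∣ ((1 : ℕ) : ZMod (∏ j, d j)) := by
      rwa [Nat.cast_one]
    rw [cast_dvd_iff (hdn i), Nat.dvd_one] at h2
    have := h1 i
    omega
  have hgood : ∀ i, (F i = D i ∧ ¬ E i ∣ 1) ∨ (D i = 2 ∧ F i = 1) := by
    intro i
    by_cases h : d i = 2
    · right
      refine ⟨?_, if_pos h⟩
      change ((d i : ℕ) : ZMod (∏ j, d j)) = 2
      rw [h]
      rfl
    · left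
      refine ⟨if_neg h, fun h3 => ?_⟩
      have h2 : ((e i : ℕ) : ZMod (∏ j, d j)) ∣ ((1 : ℕ) : ZMod (∏ j, d j)) := by
        rw [Nat.cast_one]
        simpa only [E, if_neg h] using h3
      rw [cast_dvd_iff ((he i h).1.trans (hdn i)), Nat.dvd_one] at h2
      have := (he i h).2
      omega
  have hsurj : ∀ y : Fin m → ZMod (∏ j, d j), ∃ a, ∀ i, D i ∣ a - y i := by
    intro y
    obtain ⟨a, ha⟩ := crt_surj d hc (fun i => ph d i (y i))
    refine ⟨a, fun i => (dvd_iff_cast (hdn i) _).mpr ?_⟩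
    change ph d i _ = 0
    rw [map_sub, ha, sub_self]
  have hinj : ∀ a : ZMod (∏ j, d j), (∀ i, D i ∣ a) → a = 0 := fun a ha =>
    crt_inj d hc a (fun i => (dvd_iff_cast (hdn i) _).mp (ha i))
  have hm : 1 ≤ m := i0.pos
  constructor
  · rintro ⟨h2, h3⟩
    refine det_mem D F E hm hef hfd hd1 hgood hsurj _
      (least_low D F E hef hfd hd1 hsurj hinj i0 ?_)
    simp only [E, D, if_neg h2, h3]
  · intro h2
    refine det_mem D F E hm hef hfd hd1 hgood hsurj _
      (least_high D F E hef hfd ?_ hsurj hinj i0)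
    intro i
    by_cases h : d i = 2
    · simp only [E, if_pos h]
      exact hd1 i
    · simp only [E, D, if_neg h]
      rw [cast_dvd_iff (hdn i)]
      intro h3
      have := Nat.le_of_dvd (by have := (he i h).2; omega) h3
      have := h2 i h
      omega

lemma det_one (n : ℕ) (hn : 2 ≤ n) : 1 ∈ DetSizes (DihedralGroup n) := by
  have : NeZero n := ⟨by omega⟩
  have : Fact (1 < n) := ⟨hn⟩
  have hd1 : ¬ (0 : ZMod n) ∣ 1 := by simp
  have hsurj : ∀ y : Fin 1 → ZMod n, ∃ a, ∀ i, (0 : ZMod n) ∣ a - y i := fun y =>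
    ⟨y 0, fun i => by rw [Subsingleton.elim i 0, sub_self]⟩
  exact det_mem (fun _ : Fin 1 => (0 : ZMod n)) (fun _ => 0) (fun _ => 0) le_rfl
    (fun _ => dvd_rfl) (fun _ => dvd_rfl) (fun _ => hd1) (fun _ => Or.inl ⟨rfl, hd1⟩) hsurj _
    (least_low _ _ _ (fun _ => dvd_rfl) (fun _ => dvd_rfl) (fun _ => hd1) hsurj
      (fun a ha => zero_dvd_iff.mp (ha 0)) 0 rfl)

lemma det_low (n : ℕ) (hn : 2 ≤ n) :
    Set.Icc 1 n.primeFactors.card ⊆ DetSizes (DihedralGroup n) := by
  rintro m ⟨h1, h2⟩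
  rcases eq_or_lt_of_le h1 with rfl | h3
  · exact det_one n hn
  · obtain ⟨d, hc, hd, rfl⟩ := split (n := n) (m := m) (by omega) h1 h2
    have h4 : ∃ i0, d i0 ≠ 2 := by
      by_contra hcon
      push Not at hcon
      have h5 : Nat.Coprime (d ⟨0, by omega⟩) (d ⟨1, by omega⟩) := hc (by simp)
      rw [hcon, hcon] at h5
      norm_num at h5
    obtain ⟨i0, hi0⟩ := h4
    exact (det_both d d hc hd (fun i _ => ⟨dvd_rfl, hd i⟩) i0).1 ⟨hi0, rfl⟩

lemma det_high (n : ℕ) (hn : 2 ≤ n)
    (h : ¬ ∃ p : ℕ, p.Prime ∧ p ≠ 2 ∧ p ∣ n ∧ ¬ p ^ 2 ∣ n ∧ n ≠ p ∧ n ≠ 2 * p) :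
    n.primeFactors.card + 1 ∈ DetSizes (DihedralGroup n) := by
  classical
  have hm : 1 ≤ n.primeFactors.card :=
    Finset.card_pos.mpr (Nat.nonempty_primeFactors.mpr hn)
  generalize hk : n.primeFactors.card = m at hm ⊢
  obtain ⟨d, hc, hd, rfl⟩ := split (n := n) (m := m) (by omega) hm hk.ge
  have hdn : ∀ i, d i ∣ ∏ j, d j := fun i => Finset.dvd_prod_of_mem d (Finset.mem_univ i)
  by_cases hsq : ∀ p : ℕ, p.Prime → p ≠ 2 → p ∣ ∏ j, d j → p ^ 2 ∣ ∏ j, d j
  · have he : ∀ i, ∃ e : ℕ, d i ≠ 2 → e ∣ d i ∧ 1 < e ∧ e < d i := by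
      intro i
      by_cases h2 : d i = 2
      · exact ⟨0, fun h3 => absurd h2 h3⟩
      · have hnp : ¬ (d i).Prime := by
          intro hp
          have h3 := hsq _ hp h2 (hdn i)
          rw [← Finset.mul_prod_erase _ _ (Finset.mem_univ i), pow_two] at h3
          have h4 := Nat.dvd_of_mul_dvd_mul_left hp.pos h3
          obtain ⟨j, hj, hj2⟩ := (Nat.Prime.prime hp).exists_mem_finset_dvd h4
          have h5 : Nat.Coprime (d i) (d j) := hc (Finset.mem_erase.mp hj).1.symm
          exact hp.one_lt.ne' (h5.eq_one_of_dvd hj2)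
        obtain ⟨e, h3, h4, h5⟩ := Nat.exists_dvd_of_not_prime2 (hd i) hnp
        exact ⟨e, fun _ => ⟨h3, h4, h5⟩⟩
    choose e he using he
    exact (det_both d e hc hd (fun i hi => ⟨(he i hi).1, (he i hi).2.1⟩) ⟨0, hm⟩).2
      (fun i hi => (he i hi).2.2)
  · push Not at hsq h
    obtain ⟨p, hp, hp2, hpn, hpp⟩ := hsq
    have h2 : (∏ j, d j) ∣ 2 * p := by
      by_cases h3 : ∏ j, d j = p
      · rw [h3]; exact dvd_mul_left p 2
      · rw [h p hp hp2 hpn hpp h3]
    obtain ⟨i0, -, hi0⟩ := (Nat.Prime.prime hp).exists_mem_finset_dvd hpn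
    refine det_cycle d hc hd ?_ i0 (fun i hi => ?_)
    · have := Nat.le_of_dvd (by omega) hpn
      have := hp.two_le
      omega
    · have h5 : Nat.Coprime (d i) (d i0) := hc hi
      have h6 : d i ∣ 2 := (h5.coprime_dvd_right hi0).dvd_of_dvd_mul_right ((hdn i).trans h2)
      have := Nat.le_of_dvd (by norm_num) h6
      have := hd i
      omega

lemma base_sub (n : ℕ) (hn : 2 ≤ n) :
    BaseSizes (DihedralGroup n) ⊆ Set.Icc 1 (n.primeFactors.card + 1) := by
  have : NeZero n := ⟨by omega⟩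
  rintro b ⟨S, _, _, hf, ⟨B, rfl, hB⟩, hlow⟩
  constructor
  · by_contra h
    have h0 : B = ∅ := Finset.card_eq_zero.mp (by omega)
    have h2 := hB (sr 0) (by simp [h0])
    rw [one_def] at h2
    cases h2
  · obtain ⟨B', hc, hB'⟩ := upper hf
    exact (hlow ⟨B', rfl, hB'⟩).trans hc

theorem full (n : ℕ) (hn : 2 ≤ n) :
    BaseSizes (DihedralGroup n) = Set.Icc 1 (n.primeFactors.card + 1) ∧
    ((∃ p : ℕ, p.Prime ∧ p ≠ 2 ∧ p ∣ n ∧ ¬ p ^ 2 ∣ n ∧ n ≠ p ∧ n ≠ 2 * p) →
      DetSizes (DihedralGroup n) = Set.Icc 1 n.primeFactors.card) ∧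
    ((¬ ∃ p : ℕ, p.Prime ∧ p ≠ 2 ∧ p ∣ n ∧ ¬ p ^ 2 ∣ n ∧ n ≠ p ∧ n ≠ 2 * p) →
      DetSizes (DihedralGroup n) = Set.Icc 1 (n.primeFactors.card + 1)) ∧
    (DetSizes (DihedralGroup n) = BaseSizes (DihedralGroup n) ↔
      ¬ ∃ p : ℕ, p.Prime ∧ p ≠ 2 ∧ p ∣ n ∧ ¬ p ^ 2 ∣ n ∧ n ≠ p ∧ n ≠ 2 * p) := by
  have hsub := (det_sub (DihedralGroup n)).trans (base_sub n hn)
  have hgood : (¬ ∃ p : ℕ, p.Prime ∧ p ≠ 2 ∧ p ∣ n ∧ ¬ p ^ 2 ∣ n ∧ n ≠ p ∧ n ≠ 2 * p) →
      DetSizes (DihedralGroup n) = Set.Icc 1 (n.primeFactors.card + 1) := by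
    intro h
    refine hsub.antisymm ?_
    rintro b ⟨h1, h2⟩
    rcases eq_or_lt_of_le h2 with rfl | h3
    · exact det_high n hn h
    · exact det_low n hn ⟨h1, by omega⟩
  have hB : BaseSizes (DihedralGroup n) = Set.Icc 1 (n.primeFactors.card + 1) := by
    rcases eq_or_lt_of_le hn with rfl | h3
    · refine (base_sub 2 le_rfl).antisymm ?_
      rw [← hgood]
      · exact det_sub _
      · rintro ⟨p, hp, hp2, hpn, -⟩
        exact hp2 ((Nat.prime_dvd_prime_iff_eq hp Nat.prime_two).mp hpn)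
    · exact base_eq n h3
  refine ⟨hB, ?_, hgood, ?_, fun h => (hgood h).trans hB.symm⟩
  · rintro ⟨p, hp, hp2, hpn, hpp, hn1, hn2⟩
    obtain ⟨-, hD, -⟩ := not_mem n p hp hp2 hpn hpp hn1 hn2
    refine Set.Subset.antisymm (fun b hb => ?_) (det_low n hn)
    have h1 := hsub hb
    have h2 := h1.2
    have h4 : b ≠ n.primeFactors.card + 1 := fun h => hD (h ▸ hb)
    exact ⟨h1.1, by omega⟩
  · rintro h ⟨p, hp, hp2, hpn, hpp, hn1, hn2⟩
    exact (not_mem n p hp hp2 hpn hpp hn1 hn2).2.2 h

end Pool.Agent.H.MP_4c7f2d_al
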